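import Pool.Agent.TH844.DL.Defs

/-!
# The linear form as a convergent series
-/

open Polynomial

namespace Pool.Agent.TH844.DL

namespace BridgeAux

open Pool.Agent.LP

theorem hsc {f g : ℕ → ℝ} {x : ℝ} (h : ∀ n, f n = g n) (hg : HasSum g x) : HasSum f x := by
  rwa [show f = g from funext h]

/-! ### the series of a polynomial -/

theorem choose_sum (i : ℕ) :
    HasSum (fun s : ℕ => (1 / 2 : ℝ) ^ (s + 1) * (s.choose i : ℝ)) 1 := by
  have h1 : HasSum (fun n : ℕ => (((n + i).choose i : ℕ) : ℝ) * (1 / 2 : ℝ) ^ n)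
      (1 / (1 - (1 / 2 : ℝ)) ^ (i + 1)) :=
    hasSum_choose_mul_geometric_of_norm_lt_one i (by norm_num)
  have h2 := h1.mul_left ((1 / 2 : ℝ) ^ (i + 1))
  have h3 : (1 / 2 : ℝ) ^ (i + 1) * (1 / (1 - (1 / 2 : ℝ)) ^ (i + 1)) = 1 := by
    have : (1 - (1 / 2 : ℝ)) = 1 / 2 := by norm_num
    rw [this]
    field_simp
  rw [h3] at h2
  rw [← hasSum_nat_add_iff' i]
  have h4 : ∑ s ∈ Finset.range i, (1 / 2 : ℝ) ^ (s + 1) * (s.choose i : ℝ) = 0 := by
    refine Finset.sum_eq_zero fun s hs => ?_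
    rw [Nat.choose_eq_zero_of_lt (Finset.mem_range.1 hs)]
    simp
  rw [h4, sub_zero]
  refine hsc (fun n => ?_) h2
  ring

/-- Newton's formula with a fixed number of terms -/
theorem newton' (q : ℚ[X]) (s : ℕ) :
    q.eval ((s : ℚ) + 1) = ∑ i ∈ Finset.range (q.natDegree + 1), (s.choose i : ℚ) * fd q i 1 := by
  have h1 := newton q 1 s
  rw [add_comm] at h1
  rw [h1]
  have h2 : ∀ N : ℕ, s + 1 ≤ N → ∑ k ∈ Finset.range (s + 1), (s.choose k : ℚ) * fd q k 1 =
      ∑ k ∈ Finset.range N, (s.choose k : ℚ) * fd q k 1 := by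
    intro N hN
    refine Finset.sum_subset (Finset.range_subset_range.2 hN) ?_
    intro k _ hk
    rw [Finset.mem_range, not_lt] at hk
    rw [Nat.choose_eq_zero_of_lt (by omega)]
    simp
  have h3 : ∀ N : ℕ, q.natDegree + 1 ≤ N →
      ∑ k ∈ Finset.range (q.natDegree + 1), (s.choose k : ℚ) * fd q k 1 =
      ∑ k ∈ Finset.range N, (s.choose k : ℚ) * fd q k 1 := by
    intro N hN
    refine Finset.sum_subset (Finset.range_subset_range.2 hN) ?_
    intro k _ hk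
    rw [Finset.mem_range, not_lt] at hk
    rw [fd_of_lt (by omega)]
    simp
  rw [h2 (max (s + 1) (q.natDegree + 1)) (le_max_left _ _),
    h3 (max (s + 1) (q.natDegree + 1)) (le_max_right _ _)]

theorem EB_sum (q : ℚ[X]) :
    HasSum (fun s : ℕ => (1 / 2 : ℝ) ^ (s + 1) * ((q.eval ((s : ℚ) + 1) : ℚ) : ℝ))
      ((TH50.DL.EB q : ℚ) : ℝ) := by
  rw [TH50.DL.EB_eq q (Nat.lt_succ_self _)]
  have h1 : HasSum (fun s : ℕ => ∑ i ∈ Finset.range (q.natDegree + 1),
      (1 / 2 : ℝ) ^ (s + 1) * (s.choose i : ℝ) * ((fd q i 1 : ℚ) : ℝ))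
      (∑ i ∈ Finset.range (q.natDegree + 1), 1 * ((fd q i 1 : ℚ) : ℝ)) :=
    hasSum_sum fun i _ => (choose_sum i).mul_right _
  simp only [one_mul] at h1
  convert h1 using 1
  · funext s
    rw [newton' q s]
    push_cast
    rw [Finset.mul_sum]
    refine Finset.sum_congr rfl fun i _ => ?_
    ring
  · push_cast
    rfl

/-! ### the polar parts -/

theorem log_sum (k : ℕ) :
    HasSum (fun s : ℕ => (1 / 2 : ℝ) ^ (s + 1) * (1 / (((s : ℝ) + 1) + k)))
      (2 ^ k * (Real.log 2 - ((TH50.DL.Tz 1 k : ℚ) : ℝ))) := by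
  have h1 : HasSum (fun n : ℕ => (1 / 2 : ℝ) ^ (n + 1) / ((n : ℝ) + 1)) (-Real.log (1 - 1 / 2)) :=
    Real.hasSum_pow_div_log_of_abs_lt_one (by rw [abs_of_pos] <;> norm_num)
  have h2 : -Real.log (1 - 1 / 2) = Real.log 2 := by
    have : (1 - 1 / 2 : ℝ) = 2⁻¹ := by norm_num
    rw [this, Real.log_inv, neg_neg]
  rw [h2, ← hasSum_nat_add_iff' k] at h1
  have h3 := h1.mul_left ((2 : ℝ) ^ k)
  have h4 : ((TH50.DL.Tz 1 k : ℚ) : ℝ) = ∑ i ∈ Finset.range k, (1 / 2 : ℝ) ^ (i + 1) / ((i : ℝ) + 1) := by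
    unfold TH50.DL.Tz
    have h5 : Finset.Icc 1 k = Finset.Ico 1 (k + 1) := by
      ext j; simp only [Finset.mem_Icc, Finset.mem_Ico]; omega
    rw [h5, Finset.sum_Ico_eq_sum_range, Nat.add_sub_cancel]
    push_cast
    refine Finset.sum_congr rfl fun i _ => ?_
    rw [add_comm 1 i, add_comm (1 : ℝ) (i : ℝ), pow_one]
  rw [h4]
  refine hsc (fun s => ?_) h3
  have h6 : (1 / 2 : ℝ) ^ (s + k + 1) = (1 / 2) ^ (s + 1) * (1 / 2) ^ k := by ring
  rw [h6]
  push_cast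
  have h7 : (2 : ℝ) ^ k * (1 / 2) ^ k = 1 := by rw [← mul_pow]; norm_num
  have h8 : (s : ℝ) + 1 + k = (s : ℝ) + k + 1 := by ring
  rw [h8]
  calc _ = (1 / 2 : ℝ) ^ (s + 1) / ((s : ℝ) + k + 1) * 1 := by ring
    _ = (1 / 2 : ℝ) ^ (s + 1) / ((s : ℝ) + k + 1) * ((2 : ℝ) ^ k * (1 / 2) ^ k) := by rw [h7]
    _ = _ := by ring

theorem dilog_sum (k : ℕ) :
    HasSum (fun s : ℕ => (1 / 2 : ℝ) ^ (s + 1) * (1 / (((s : ℝ) + 1) + k) ^ 2))
      (2 ^ k * (TH50.DL.dilog - ((TH50.DL.Tz 2 k : ℚ) : ℝ))) := by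
  have h0 : Summable (fun n : ℕ => (1 / 2 : ℝ) ^ (n + 1) / ((n : ℝ) + 1) ^ 2) := by
    have h1 : Summable (fun n : ℕ => (1 / 2 : ℝ) ^ (n + 1)) :=
      (summable_nat_add_iff 1).2 (summable_geometric_of_lt_one (by norm_num) (by norm_num))
    refine Summable.of_nonneg_of_le (fun n => by positivity) (fun n => ?_) h1
    have h2 : (1 : ℝ) ≤ ((n : ℝ) + 1) ^ 2 := by
      have : (0 : ℝ) ≤ n := Nat.cast_nonneg n
      nlinarith
    exact div_le_self (by positivity) h2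
  have h1 : HasSum (fun n : ℕ => (1 / 2 : ℝ) ^ (n + 1) / ((n : ℝ) + 1) ^ 2) TH50.DL.dilog := h0.hasSum
  rw [← hasSum_nat_add_iff' k] at h1
  have h3 := h1.mul_left ((2 : ℝ) ^ k)
  have h4 : ((TH50.DL.Tz 2 k : ℚ) : ℝ) = ∑ i ∈ Finset.range k, (1 / 2 : ℝ) ^ (i + 1) / ((i : ℝ) + 1) ^ 2 := by
    unfold TH50.DL.Tz
    have h5 : Finset.Icc 1 k = Finset.Ico 1 (k + 1) := by
      ext j; simp only [Finset.mem_Icc, Finset.mem_Ico]; omega
    rw [h5, Finset.sum_Ico_eq_sum_range, Nat.add_sub_cancel]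
    push_cast
    refine Finset.sum_congr rfl fun i _ => ?_
    rw [add_comm 1 i, add_comm (1 : ℝ) (i : ℝ)]
  rw [h4]
  refine hsc (fun s => ?_) h3
  have h6 : (1 / 2 : ℝ) ^ (s + k + 1) = (1 / 2) ^ (s + 1) * (1 / 2) ^ k := by ring
  rw [h6]
  push_cast
  have h7 : (2 : ℝ) ^ k * (1 / 2) ^ k = 1 := by rw [← mul_pow]; norm_num
  have h8 : (s : ℝ) + 1 + k = (s : ℝ) + k + 1 := by ring
  rw [h8]
  calc _ = (1 / 2 : ℝ) ^ (s + 1) / ((s : ℝ) + k + 1) ^ 2 * 1 := by ring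
    _ = (1 / 2 : ℝ) ^ (s + 1) / ((s : ℝ) + k + 1) ^ 2 * ((2 : ℝ) ^ k * (1 / 2) ^ k) := by rw [h7]
    _ = _ := by ring

/-! ### partial fractions -/

/-- `∏_{j ∈ [a,b], j ≠ k} (X + j)` -/
noncomputable def eK (a b k : ℕ) : ℚ[X] := ∏ j ∈ (Finset.Icc a b).erase k, (X + C (j : ℚ))

theorem pf (a b : ℕ) (q : ℚ[X]) :
    An a * q = pp a b q * Pn a b + ∑ k ∈ Finset.Icc a b, C (rs a b q k) * eK a b k := by
  have h1 := modByMonic_add_div (An a * q) (Pn a b)
  have hdeg : (Pn a b).degree = (Finset.Icc a b).card := by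
    unfold Pn
    rw [degree_prod]
    simp only [degree_X_add_C]
    simp
  have hdeg2 : ((An a * q) %ₘ Pn a b).degree < (Finset.Icc a b).card := by
    rw [← hdeg]
    exact degree_modByMonic_lt _ (Pn_monic a b)
  have hinj : Set.InjOn (fun k : ℕ => -(k : ℚ)) (Finset.Icc a b) := by
    intro x _ y _ hxy
    simp only [neg_inj, Nat.cast_inj] at hxy
    exact hxy
  have key : (An a * q) %ₘ Pn a b = ∑ k ∈ Finset.Icc a b, C (rs a b q k) * eK a b k := by
    refine eq_of_degrees_lt_of_eval_index_eq (Finset.Icc a b) hinj hdeg2 ?_ ?_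
    · refine lt_of_le_of_lt (degree_sum_le _ _) ?_
      rw [Finset.sup_lt_iff (WithBot.bot_lt_coe _)]
      intro k hk
      refine lt_of_le_of_lt ((degree_mul_le _ _).trans
        ((add_le_add_left degree_C_le _).trans (zero_add _).le)) ?_
      unfold eK
      rw [degree_prod]
      simp only [degree_X_add_C]
      have h2 : ((Finset.Icc a b).erase k).card < (Finset.Icc a b).card :=
        Finset.card_erase_lt_of_mem hk
      simp only [Finset.sum_const, nsmul_eq_mul, mul_one]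
      exact_mod_cast h2
    · intro k hk
      have h2 : (Pn a b).eval (-(k : ℚ)) = 0 := by
        unfold Pn
        rw [eval_prod]
        refine Finset.prod_eq_zero hk ?_
        simp
      have h3 := congrArg (Polynomial.eval (-(k : ℚ))) h1
      rw [eval_add, eval_mul (p := Pn a b), h2, zero_mul, add_zero] at h3
      rw [h3, eval_finsetSum]
      rw [Finset.sum_eq_single k]
      · rw [eval_mul (p := C _), eval_C]
        unfold rs eK
        rw [eval_prod]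
        have h4 : ∏ j ∈ (Finset.Icc a b).erase k, (X + C (j : ℚ)).eval (-(k : ℚ)) =
            ∏ j ∈ (Finset.Icc a b).erase k, ((j : ℚ) - k) := by
          refine Finset.prod_congr rfl fun j _ => ?_
          rw [eval_add, eval_X, eval_C]
          ring
        have h5 : ∏ j ∈ (Finset.Icc a b).erase k, ((j : ℚ) - k) ≠ 0 := by
          refine Finset.prod_ne_zero_iff.2 fun j hj => ?_
          rw [sub_ne_zero]
          exact_mod_cast (Finset.mem_erase.1 hj).1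
        rw [h4, div_mul_cancel₀ _ h5]
      · intro j hj hjk
        rw [eval_mul]
        unfold eK
        rw [eval_prod]
        rw [Finset.prod_eq_zero (i := k) (Finset.mem_erase.2 ⟨hjk.symm, hk⟩) (by simp), mul_zero]
      · intro h
        exact absurd hk h
  unfold pp
  rw [← key]
  linear_combination -h1

/-! ### real evaluation -/

/-- real coefficients -/
noncomputable def R (q : ℚ[X]) : ℝ[X] := q.map (Rat.castHom ℝ)

theorem R_eval (q : ℚ[X]) (x : ℚ) : (R q).eval (x : ℝ) = ((q.eval x : ℚ) : ℝ) := by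
  unfold R
  have h := Polynomial.eval₂_at_apply (p := q) (Rat.castHom ℝ) x
  rw [eval_map]
  simpa using h

theorem R_deriv (q : ℚ[X]) : derivative (R q) = R (derivative q) := by
  unfold R
  exact Polynomial.derivative_map q _

theorem R_prod (S : Finset ℕ) (x : ℝ) :
    (R (∏ j ∈ S, (X + C (j : ℚ)))).eval x = ∏ j ∈ S, (x + j) := by
  unfold R
  rw [Polynomial.map_prod, eval_prod]
  refine Finset.prod_congr rfl fun j _ => ?_
  simp

theorem pos_prod (S : Finset ℕ) {x : ℝ} (hx : 0 < x) : 0 < ∏ j ∈ S, (x + (j : ℝ)) :=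
  Finset.prod_pos fun j _ => by positivity

theorem pf_real (a b : ℕ) (q : ℚ[X]) {x : ℝ} (hx : 0 < x) :
    (R q).eval x * wt a b x = (R (pp a b q)).eval x +
      ∑ k ∈ Finset.Icc a b, ((rs a b q k : ℚ) : ℝ) * (1 / (x + k)) := by
  have h1 : (R (An a * q)).eval x = (R (pp a b q * Pn a b +
      ∑ k ∈ Finset.Icc a b, C (rs a b q k) * eK a b k)).eval x := by
    rw [← pf]
  have h2 : (R (An a * q)).eval x = (∏ i ∈ Finset.range a, (x + i)) * (R q).eval x := by
    rw [← R_prod]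
    unfold R An
    rw [Polynomial.map_mul, eval_mul]
  have h3 : (R (pp a b q * Pn a b +
      ∑ k ∈ Finset.Icc a b, C (rs a b q k) * eK a b k)).eval x =
      (R (pp a b q)).eval x * ∏ k ∈ Finset.Icc a b, (x + k) +
      ∑ k ∈ Finset.Icc a b, ((rs a b q k : ℚ) : ℝ) * ∏ j ∈ (Finset.Icc a b).erase k, (x + (j : ℝ)) := by
    rw [← R_prod]
    have h4 : ∀ k, ∏ j ∈ (Finset.Icc a b).erase k, (x + (j : ℝ)) = (R (eK a b k)).eval x := by
      intro k
      rw [← R_prod]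
      rfl
    simp only [h4]
    unfold R Pn
    rw [Polynomial.map_add, Polynomial.map_mul, Polynomial.map_sum, eval_add, eval_mul, eval_finsetSum]
    congr 1
    refine Finset.sum_congr rfl fun k _ => ?_
    rw [Polynomial.map_mul, eval_mul, map_C, eval_C]
    rfl
  rw [h2, h3] at h1
  have hP := (pos_prod (Finset.Icc a b) hx).ne'
  unfold wt
  rw [mul_div_assoc', div_eq_iff hP, mul_comm, h1, add_mul, Finset.sum_mul]
  congr 1
  refine Finset.sum_congr rfl fun k hk => ?_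
  rw [← Finset.mul_prod_erase _ _ hk]
  have : x + (k : ℝ) ≠ 0 := by positivity
  field_simp

theorem wt_diff (a b : ℕ) {x : ℝ} (hx : 0 < x) : DifferentiableAt ℝ (wt a b) x := by
  unfold wt
  refine DifferentiableAt.div ?_ ?_ (pos_prod _ hx).ne'
  · have : (fun x : ℝ => ∏ i ∈ Finset.range a, (x + (i : ℝ))) =
        fun x => (R (∏ j ∈ Finset.range a, (X + C (j : ℚ)))).eval x := by
      funext y
      rw [R_prod]
    rw [this]
    exact Polynomial.differentiableAt _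
  · have : (fun x : ℝ => ∏ i ∈ Finset.Icc a b, (x + (i : ℝ))) =
        fun x => (R (∏ j ∈ Finset.Icc a b, (X + C (j : ℚ)))).eval x := by
      funext y
      rw [R_prod]
    rw [this]
    exact Polynomial.differentiableAt _

theorem pf_deriv (a b : ℕ) (q : ℚ[X]) {x : ℝ} (hx : 0 < x) :
    (derivative (R q)).eval x * wt a b x + (R q).eval x * deriv (wt a b) x =
      (R (derivative (pp a b q))).eval x -
      ∑ k ∈ Finset.Icc a b, ((rs a b q k : ℚ) : ℝ) * (1 / (x + k) ^ 2) := by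
  have h1 : HasDerivAt (fun y => (R q).eval y * wt a b y)
      ((derivative (R q)).eval x * wt a b x + (R q).eval x * deriv (wt a b) x) x :=
    (Polynomial.hasDerivAt (R q) x).mul (wt_diff a b hx).hasDerivAt
  have h2 : HasDerivAt (fun y => (R (pp a b q)).eval y +
      ∑ k ∈ Finset.Icc a b, ((rs a b q k : ℚ) : ℝ) * (1 / (y + k)))
      ((derivative (R (pp a b q))).eval x +
        ∑ k ∈ Finset.Icc a b, ((rs a b q k : ℚ) : ℝ) * (-1 / (x + k) ^ 2)) x := by
    refine (Polynomial.hasDerivAt _ x).add ?_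
    refine HasDerivAt.fun_sum fun k _ => ?_
    refine HasDerivAt.const_mul _ ?_
    have h3 : HasDerivAt (fun y : ℝ => y + (k : ℝ)) 1 x := (hasDerivAt_id x).add_const _
    have h4 := h3.fun_inv (by positivity : x + (k : ℝ) ≠ 0)
    simpa only [one_div] using h4
  have h3 : (fun y => (R q).eval y * wt a b y) =ᶠ[nhds x] (fun y => (R (pp a b q)).eval y +
      ∑ k ∈ Finset.Icc a b, ((rs a b q k : ℚ) : ℝ) * (1 / (y + k))) := by
    filter_upwards [lt_mem_nhds hx] with y hy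
    exact pf_real a b q hy
  have h4 := h1.unique (h2.congr_of_eventuallyEq h3)
  rw [h4, R_deriv, sub_eq_add_neg, ← Finset.sum_neg_distrib]
  congr 1
  refine Finset.sum_congr rfl fun k _ => ?_
  ring

theorem tm_sum (a b : ℕ) (α β γ : ℚ)
    (hrel : (γ : ℝ) + α * Real.log 2 + β * TH50.DL.dilog = 0) (q : ℚ[X]) :
    HasSum (tm a b α β (R q)) ((TH50.DL.L a b α β γ q : ℚ) : ℝ) := by
  have hE1 := (EB_sum (pp a b q)).mul_left (-(α : ℝ))
  have hE2 := (EB_sum (derivative (pp a b q))).mul_left (β : ℝ)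
  have hL : HasSum (fun s : ℕ => ∑ k ∈ Finset.Icc a b, -(α : ℝ) * ((rs a b q k : ℚ) : ℝ) *
      ((1 / 2 : ℝ) ^ (s + 1) * (1 / (((s : ℝ) + 1) + k))))
      (∑ k ∈ Finset.Icc a b, -(α : ℝ) * ((rs a b q k : ℚ) : ℝ) *
        (2 ^ k * (Real.log 2 - ((TH50.DL.Tz 1 k : ℚ) : ℝ)))) :=
    hasSum_sum fun k _ => (log_sum k).mul_left _
  have hD : HasSum (fun s : ℕ => ∑ k ∈ Finset.Icc a b, -(β : ℝ) * ((rs a b q k : ℚ) : ℝ) *
      ((1 / 2 : ℝ) ^ (s + 1) * (1 / (((s : ℝ) + 1) + k) ^ 2)))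
      (∑ k ∈ Finset.Icc a b, -(β : ℝ) * ((rs a b q k : ℚ) : ℝ) *
        (2 ^ k * (TH50.DL.dilog - ((TH50.DL.Tz 2 k : ℚ) : ℝ)))) :=
    hasSum_sum fun k _ => (dilog_sum k).mul_left _
  have hall := (hE1.add hE2).add (hL.add hD)
  have hval : -(α : ℝ) * ((TH50.DL.EB (pp a b q) : ℚ) : ℝ) +
      β * ((TH50.DL.EB (derivative (pp a b q)) : ℚ) : ℝ) +
      (∑ k ∈ Finset.Icc a b, -(α : ℝ) * ((rs a b q k : ℚ) : ℝ) *
        (2 ^ k * (Real.log 2 - ((TH50.DL.Tz 1 k : ℚ) : ℝ))) +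
      ∑ k ∈ Finset.Icc a b, -(β : ℝ) * ((rs a b q k : ℚ) : ℝ) *
        (2 ^ k * (TH50.DL.dilog - ((TH50.DL.Tz 2 k : ℚ) : ℝ)))) =
      ((TH50.DL.L a b α β γ q : ℚ) : ℝ) := by
    have h1 : TH50.DL.L a b α β γ q = TH50.DL.Lf a b α β γ q := rfl
    rw [h1]
    unfold TH50.DL.Lf
    push_cast
    rw [← Finset.sum_add_distrib]
    have h2 : ∑ k ∈ Finset.Icc a b, (-(α : ℝ) * ((rs a b q k : ℚ) : ℝ) *
        (2 ^ k * (Real.log 2 - ((TH50.DL.Tz 1 k : ℚ) : ℝ))) + -(β : ℝ) * ((rs a b q k : ℚ) : ℝ) *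
        (2 ^ k * (TH50.DL.dilog - ((TH50.DL.Tz 2 k : ℚ) : ℝ)))) =
        ∑ k ∈ Finset.Icc a b, (2 : ℝ) ^ k * ((rs a b q k : ℚ) : ℝ) *
          (γ + α * ((TH50.DL.Tz 1 k : ℚ) : ℝ) + β * ((TH50.DL.Tz 2 k : ℚ) : ℝ)) := by
      refine Finset.sum_congr rfl fun k _ => ?_
      have h3 : (γ : ℝ) = -(α * Real.log 2) - β * TH50.DL.dilog := by linarith
      rw [h3]
      ring
    rw [h2]
    ring
  rw [hval] at hall
  refine hsc (fun s => ?_) hall
  unfold tm
  have hx : (0 : ℝ) < (s : ℝ) + 1 := by positivity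
  rw [pf_real a b q hx, pf_deriv a b q hx]
  have h5 : ∀ p : ℚ[X], ((p.eval ((s : ℚ) + 1) : ℚ) : ℝ) = (R p).eval ((s : ℝ) + 1) := by
    intro p
    have h6 := R_eval p ((s : ℚ) + 1)
    rw [← h6]
    push_cast
    rfl
  rw [h5, h5]
  have h6 : ∑ k ∈ Finset.Icc a b, -(α : ℝ) * ((rs a b q k : ℚ) : ℝ) *
      ((1 / 2 : ℝ) ^ (s + 1) * (1 / (((s : ℝ) + 1) + k))) =
      -(α : ℝ) * (1 / 2 : ℝ) ^ (s + 1) *
        ∑ k ∈ Finset.Icc a b, ((rs a b q k : ℚ) : ℝ) * (1 / (((s : ℝ) + 1) + k)) := by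
    rw [Finset.mul_sum]
    refine Finset.sum_congr rfl fun k _ => ?_
    ring
  have h7 : ∑ k ∈ Finset.Icc a b, -(β : ℝ) * ((rs a b q k : ℚ) : ℝ) *
      ((1 / 2 : ℝ) ^ (s + 1) * (1 / (((s : ℝ) + 1) + k) ^ 2)) =
      -(β : ℝ) * (1 / 2 : ℝ) ^ (s + 1) *
        ∑ k ∈ Finset.Icc a b, ((rs a b q k : ℚ) : ℝ) * (1 / (((s : ℝ) + 1) + k) ^ 2) := by
    rw [Finset.mul_sum]
    refine Finset.sum_congr rfl fun k _ => ?_
    ring
  rw [h6, h7]
  ring

/-! ### linearity in the polynomial -/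

theorem tm_add (a b : ℕ) (α β : ℝ) (f g : ℝ[X]) (s : ℕ) :
    tm a b α β (f + g) s = tm a b α β f s + tm a b α β g s := by
  unfold tm
  rw [derivative_add, eval_add, eval_add]
  ring

theorem tm_smul (a b : ℕ) (α β c : ℝ) (f : ℝ[X]) (s : ℕ) :
    tm a b α β (c • f) s = c * tm a b α β f s := by
  unfold tm
  rw [derivative_smul, eval_smul, eval_smul, smul_eq_mul, smul_eq_mul]
  ring

/-- the functional -/
noncomputable def TL (v : ℕ → ℝ) : ℝ[X] →ₗ[ℝ] ℝ := Polynomial.lsum fun j => v j • LinearMap.id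

theorem TL_monomial (v : ℕ → ℝ) (j : ℕ) (c : ℝ) : TL v (monomial j c) = c * v j := by
  unfold TL
  rw [Polynomial.lsum_apply, Polynomial.sum_monomial_index]
  · rw [LinearMap.smul_apply, LinearMap.id_apply, smul_eq_mul, mul_comm]
  · simp

end BridgeAux

open BridgeAux in
theorem A_bridge : S_bridge := by
  intro a b _ _ α β γ hrel
  refine ⟨TL fun i => ((TH50.DL.L a b α β γ (X ^ i) : ℚ) : ℝ), fun i => ?_, fun f => ?_⟩
  · have h := TL_monomial (fun i => ((TH50.DL.L a b α β γ (X ^ i) : ℚ) : ℝ)) i 1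
    rw [one_mul, Polynomial.monomial_one_right_eq_X_pow] at h
    exact h.symm
  · induction f using Polynomial.induction_on' with
    | add f g hf hg =>
      rw [map_add]
      exact hsc (tm_add a b α β f g) (hf.add hg)
    | monomial i c =>
      rw [TL_monomial]
      have h1 : (monomial i c : ℝ[X]) = c • R (X ^ i) := by
        unfold R
        rw [Polynomial.map_pow, map_X, smul_eq_C_mul, C_mul_X_pow_eq_monomial]
      rw [h1]
      exact hsc (tm_smul a b α β c _) ((tm_sum a b α β γ hrel (X ^ i)).mul_left c)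

end Pool.Agent.TH844.DL
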