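import Pool.Agent.TH50.DL.Final
import Pool.Agent.TH89.DL.Li2

/-!
# Linear independence of `1, log 2, Li₂(1/2)` and of quadratic expressions in `log 2` and `i π`
-/

open Filter Topology

namespace Pool.Agent.TH50.DL

/-- the archimedean bound, for all relations -/
def ArchAll : Prop := ∀ α β γ : ℤ, (γ : ℝ) + α * Real.log 2 + β * dilog = 0 → Arch α β γ

/-- no rational relation between `1, log 2, Li₂(1/2)` -/
theorem indep_rat (hA : ArchAll) {x y z : ℚ} (h : (x : ℝ) + y * Real.log 2 + z * dilog = 0) :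
    x = 0 ∧ y = 0 ∧ z = 0 := by
  set N : ℤ := x.den * y.den * z.den with hN
  have hN0 : N ≠ 0 := by
    rw [hN]
    have h1 := x.den_nz
    have h2 := y.den_nz
    have h3 := z.den_nz
    positivity
  have hx : ((x.num * (y.den * z.den) : ℤ) : ℚ) = N * x := by
    rw [hN]; push_cast
    have : (x.num : ℚ) = x * x.den := (Rat.mul_den_eq_num x).symm
    rw [this]; ring
  have hy : ((y.num * (x.den * z.den) : ℤ) : ℚ) = N * y := by
    rw [hN]; push_cast
    have : (y.num : ℚ) = y * y.den := (Rat.mul_den_eq_num y).symm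
    rw [this]; ring
  have hz : ((z.num * (x.den * y.den) : ℤ) : ℚ) = N * z := by
    rw [hN]; push_cast
    have : (z.num : ℚ) = z * z.den := (Rat.mul_den_eq_num z).symm
    rw [this]; ring
  have hxR : ((x.num * (y.den * z.den) : ℤ) : ℝ) = N * x := by exact_mod_cast congrArg (fun q : ℚ => (q : ℝ)) hx
  have hyR : ((y.num * (x.den * z.den) : ℤ) : ℝ) = N * y := by exact_mod_cast congrArg (fun q : ℚ => (q : ℝ)) hy
  have hzR : ((z.num * (x.den * y.den) : ℤ) : ℝ) = N * z := by exact_mod_cast congrArg (fun q : ℚ => (q : ℝ)) hz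
  have hrel : ((x.num * (y.den * z.den) : ℤ) : ℝ) + ((y.num * (x.den * z.den) : ℤ) : ℝ) * Real.log 2 +
      ((z.num * (x.den * y.den) : ℤ) : ℝ) * dilog = 0 := by
    rw [hxR, hyR, hzR]
    linear_combination (N : ℝ) * h
  obtain ⟨h1, h2⟩ := no_relation (hA _ _ _ hrel)
  have hy0 : y = 0 := by
    rw [h1] at hy
    have : (N : ℚ) * y = 0 := by rw [← hy]; norm_num
    rcases mul_eq_zero.1 this with h' | h'
    · exact absurd (by exact_mod_cast h') hN0
    · exact h'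
  have hz0 : z = 0 := by
    rw [h2] at hz
    have : (N : ℚ) * z = 0 := by rw [← hz]; norm_num
    rcases mul_eq_zero.1 this with h' | h'
    · exact absurd (by exact_mod_cast h') hN0
    · exact h'
  refine ⟨?_, hy0, hz0⟩
  rw [hy0, hz0] at h
  have : (x : ℝ) = 0 := by simpa using h
  exact_mod_cast this

/-- the value of `Li₂(1/2)` -/
theorem dilog_eq : dilog = Real.pi ^ 2 / 12 - Real.log 2 ^ 2 / 2 := TH89.DL.dilog_half

/-- no rational relation between `1, log 2, π² - 6 (log 2)²` -/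
theorem indep_quad (hA : ArchAll) {x y z : ℚ}
    (h : (x : ℝ) + y * Real.log 2 + z * (Real.pi ^ 2 - 6 * Real.log 2 ^ 2) = 0) : x = 0 ∧ y = 0 ∧ z = 0 := by
  have h1 : (x : ℝ) + y * Real.log 2 + ((12 * z : ℚ) : ℝ) * dilog = 0 := by
    rw [dilog_eq]; push_cast
    linear_combination h
  obtain ⟨hx, hy, hz⟩ := indep_rat hA h1
  refine ⟨hx, hy, ?_⟩
  linarith

/-- `1, log 2, iπ, iπ log 2, 6 (log 2)² + (iπ)²` have no rational relation -/
theorem indep_complex (hA : ArchAll) {a b d e c : ℚ}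
    (h : (a : ℂ) + b * (Real.log 2 : ℂ) + d * (Real.pi * Complex.I) + e * ((Real.log 2 : ℂ) * (Real.pi * Complex.I)) +
      c * (6 * (Real.log 2 : ℂ) ^ 2 + (Real.pi * Complex.I) ^ 2) = 0) :
    a = 0 ∧ b = 0 ∧ d = 0 ∧ e = 0 ∧ c = 0 := by
  have hI : (Real.pi * Complex.I : ℂ) ^ 2 = -((Real.pi ^ 2 : ℝ) : ℂ) := by
    rw [mul_pow, Complex.I_sq]; push_cast; ring
  have h1 : (((a : ℝ) + b * Real.log 2 + c * (6 * Real.log 2 ^ 2 - Real.pi ^ 2) : ℝ) : ℂ) +
      (((d : ℝ) + e * Real.log 2) * Real.pi : ℝ) * Complex.I = 0 := by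
    rw [hI] at h
    push_cast at h ⊢
    linear_combination h
  have hre := congrArg Complex.re h1
  have him := congrArg Complex.im h1
  rw [Complex.add_re, Complex.ofReal_re, Complex.re_ofReal_mul, Complex.I_re, mul_zero, add_zero,
    Complex.zero_re] at hre
  rw [Complex.add_im, Complex.ofReal_im, Complex.im_ofReal_mul, Complex.I_im, mul_one, zero_add,
    Complex.zero_im] at him
  have him' : (d : ℝ) + e * Real.log 2 = 0 := by
    rcases mul_eq_zero.1 him with h' | h'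
    · exact h'
    · exact absurd h' Real.pi_ne_zero
  have h2 : ((a : ℚ) : ℝ) + b * Real.log 2 + ((-c : ℚ) : ℝ) * (Real.pi ^ 2 - 6 * Real.log 2 ^ 2) = 0 := by
    push_cast
    linear_combination hre
  obtain ⟨ha, hb, hc⟩ := indep_quad hA h2
  have h3 : ((d : ℚ) : ℝ) + e * Real.log 2 + ((0 : ℚ) : ℝ) * (Real.pi ^ 2 - 6 * Real.log 2 ^ 2) = 0 := by
    push_cast
    linear_combination him'
  obtain ⟨hd, he, _⟩ := indep_quad hA h3
  exact ⟨ha, hb, hd, he, by linarith⟩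

/-- the three parts of the hand-in -/
theorem concl (hA : ArchAll) :
    LinearIndependent ℚ ![(1 : ℝ), Real.log 2, ∑' k : ℕ, (1 / 2 : ℝ) ^ (k + 1) / ((k : ℝ) + 1) ^ 2] ∧
    LinearIndependent ℚ ![(1 : ℂ), (Real.log 2 : ℂ), (Real.pi * Complex.I : ℂ),
      (Real.log 2 : ℂ) * (Real.pi * Complex.I), 6 * (Real.log 2 : ℂ) ^ 2 + (Real.pi * Complex.I : ℂ) ^ 2] ∧
    (∀ x₁ y₁ x₂ y₂ : ℚ, x₁ * y₂ - x₂ * y₁ ≠ 0 → ∀ l m : ℂ,
      l = x₁ * (Real.log 2 : ℂ) + y₁ * (Real.pi * Complex.I) →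
      m = x₂ * (Real.log 2 : ℂ) + y₂ * (Real.pi * Complex.I) →
      ∀ a b d e f g : ℚ, (a ≠ 0 ∨ b ≠ 0 ∨ d ≠ 0 ∨ e ≠ 0 ∨ f ≠ 0 ∨ g ≠ 0) →
        e * x₁ ^ 2 + f * (x₁ * x₂) + g * x₂ ^ 2 = 6 * (e * y₁ ^ 2 + f * (y₁ * y₂) + g * y₂ ^ 2) →
        (a : ℂ) + b * l + d * m + e * l ^ 2 + f * (l * m) + g * m ^ 2 ≠ 0) := by
  refine ⟨?_, ?_, ?_⟩
  · rw [Fintype.linearIndependent_iff]
    intro g hg
    simp only [Fin.sum_univ_three, Matrix.cons_val_zero, Matrix.cons_val_one, Matrix.cons_val_two,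
      Matrix.head_cons, Matrix.tail_cons, Rat.smul_def, mul_one] at hg
    obtain ⟨h0, h1, h2⟩ := indep_rat hA (x := g 0) (y := g 1) (z := g 2) hg
    intro i
    fin_cases i
    · exact h0
    · exact h1
    · exact h2
  · rw [Fintype.linearIndependent_iff]
    intro g hg
    rw [Fin.sum_univ_five] at hg
    simp only [Rat.smul_def] at hg
    have hg' : ((g 0 : ℚ) : ℂ) + g 1 * (Real.log 2 : ℂ) + g 2 * (Real.pi * Complex.I) +
        g 3 * ((Real.log 2 : ℂ) * (Real.pi * Complex.I)) +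
        g 4 * (6 * (Real.log 2 : ℂ) ^ 2 + (Real.pi * Complex.I) ^ 2) = 0 := by
      have e0 : ((g 0 : ℚ) : ℂ) = g 0 * (1 : ℂ) := (mul_one _).symm
      rw [e0]
      exact hg
    obtain ⟨h0, h1, h2, h3, h4⟩ := indep_complex hA hg'
    intro i
    fin_cases i
    · exact h0
    · exact h1
    · exact h2
    · exact h3
    · exact h4
  · intro x₁ y₁ x₂ y₂ hdet l m hl hm a b d e f g hne hq h
    set A := e * y₁ ^ 2 + f * (y₁ * y₂) + g * y₂ ^ 2 with hA'
    have hqC : (e : ℂ) * x₁ ^ 2 + f * (x₁ * x₂) + g * x₂ ^ 2 =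
        6 * (e * y₁ ^ 2 + f * (y₁ * y₂) + g * y₂ ^ 2) := by exact_mod_cast congrArg (fun q : ℚ => (q : ℂ)) hq
    have h1 : (a : ℂ) + ((b * x₁ + d * x₂ : ℚ) : ℂ) * (Real.log 2 : ℂ) +
        ((b * y₁ + d * y₂ : ℚ) : ℂ) * (Real.pi * Complex.I) +
        ((2 * e * x₁ * y₁ + f * (x₁ * y₂ + x₂ * y₁) + 2 * g * x₂ * y₂ : ℚ) : ℂ) *
          ((Real.log 2 : ℂ) * (Real.pi * Complex.I)) +
        ((A : ℚ) : ℂ) * (6 * (Real.log 2 : ℂ) ^ 2 + (Real.pi * Complex.I) ^ 2) = 0 := by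
      rw [hA']
      push_cast
      rw [hl, hm] at h
      linear_combination h - (Real.log 2 : ℂ) ^ 2 * hqC
    obtain ⟨ha, hb, hd, hE, hc⟩ := indep_complex hA h1
    have k1 : e * x₁ ^ 2 + f * (x₁ * x₂) + g * x₂ ^ 2 = 0 := by rw [hq, hc, mul_zero]
    have k2 : e * y₁ ^ 2 + f * (y₁ * y₂) + g * y₂ ^ 2 = 0 := hc
    have hdet2 : (x₁ * y₂ - x₂ * y₁) ^ 2 ≠ 0 := pow_ne_zero 2 hdet
    have he : e = 0 := by
      have : e * (x₁ * y₂ - x₂ * y₁) ^ 2 = 0 := by
        linear_combination y₂ ^ 2 * k1 + x₂ ^ 2 * k2 - x₂ * y₂ * hE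
      rcases mul_eq_zero.1 this with h' | h'
      · exact h'
      · exact absurd h' hdet2
    have hg : g = 0 := by
      have : g * (x₁ * y₂ - x₂ * y₁) ^ 2 = 0 := by
        linear_combination y₁ ^ 2 * k1 + x₁ ^ 2 * k2 - x₁ * y₁ * hE
      rcases mul_eq_zero.1 this with h' | h'
      · exact h'
      · exact absurd h' hdet2
    have hf : f = 0 := by
      have : f * (x₁ * y₂ - x₂ * y₁) ^ 2 = 0 := by
        linear_combination (-2 * y₁ * y₂) * k1 + (-2 * x₁ * x₂) * k2 + (x₁ * y₂ + x₂ * y₁) * hE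
      rcases mul_eq_zero.1 this with h' | h'
      · exact h'
      · exact absurd h' hdet2
    have hb0 : b = 0 := by
      have : b * (x₁ * y₂ - x₂ * y₁) = 0 := by linear_combination y₂ * hb - x₂ * hd
      rcases mul_eq_zero.1 this with h' | h'
      · exact h'
      · exact absurd h' hdet
    have hd0 : d = 0 := by
      have : d * (x₁ * y₂ - x₂ * y₁) = 0 := by linear_combination x₁ * hd - y₁ * hb
      rcases mul_eq_zero.1 this with h' | h'
      · exact h'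
      · exact absurd h' hdet
    rcases hne with h' | h' | h' | h' | h' | h'
    · exact h' ha
    · exact h' hb0
    · exact h' hd0
    · exact h' he
    · exact h' hf
    · exact h' hg

end Pool.Agent.TH50.DL
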