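import Pool.Agent.H422R2.LP.Defs

/-!
# Hankel determinants of linear forms in `1, log 2, Li₂(1/2)`: definitions

`R_f(s) = f(s) s(s+1)…(s+a-1) / ∏_{k=a}^{b} (s+k)`, and, when `γ + α log 2 + β Li₂(1/2) = 0`,
`L(f) = -α ∑_{s ≥ 1} 2^(-s) R_f(s) + β ∑_{s ≥ 1} 2^(-s) R_f'(s)`.
Final shape: `a = n`, `b = 5 n`, sizes `4n-1, 4n, 4n+1`.
The node polynomials `An`, `Pn`, the residues `rs` and the polynomial part `pp` are those of `H422R2/LP`.
-/

open Polynomial

namespace Pool.Agent.TH50.DL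

open Pool.Agent.LP

noncomputable section

/-- `∑_{1 ≤ s ≤ k} 2^(-s) / s^j` -/
def Tz (j k : ℕ) : ℚ := ∑ s ∈ Finset.Icc 1 k, (1 / 2 : ℚ) ^ s / (s : ℚ) ^ j

/-- values `EB (X^j)` -/
def EBm (j : ℕ) : ℚ := ∑ i ∈ Finset.range (j + 1), fd (X ^ j) i 1

/-- `∑_{t ≥ 1} 2^(-t) q(t)` -/
def EB : ℚ[X] →ₗ[ℚ] ℚ := Polynomial.lsum fun j => EBm j • LinearMap.id

lemma EB_monomial (j : ℕ) (c : ℚ) : EB (monomial j c) = c * EBm j := by
  unfold EB
  rw [Polynomial.lsum_apply, Polynomial.sum_monomial_index]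
  · rw [LinearMap.smul_apply, LinearMap.id_apply, smul_eq_mul, mul_comm]
  · simp

/-- truncated formula as a linear map -/
def EBN (N : ℕ) : ℚ[X] →ₗ[ℚ] ℚ where
  toFun q := ∑ i ∈ Finset.range N, fd q i 1
  map_add' q r := by
    simp only [fd_add, Finset.sum_add_distrib]
  map_smul' c q := by
    simp only [fd_smul, RingHom.id_apply, smul_eq_mul, Finset.mul_sum]

lemma EBN_apply (N : ℕ) (q : ℚ[X]) : EBN N q = ∑ i ∈ Finset.range N, fd q i 1 := rfl

lemma EBN_monomial {N j : ℕ} (h : j < N) (c : ℚ) : EBN N (monomial j c) = c * EBm j := by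
  have h1 : (monomial j c : ℚ[X]) = c • X ^ j := by
    rw [smul_eq_C_mul, C_mul_X_pow_eq_monomial]
  rw [h1, map_smul, smul_eq_mul, EBN_apply]
  unfold EBm
  congr 1
  refine (Finset.sum_subset (Finset.range_subset_range.2 (by omega)) ?_).symm
  intro i _ hi
  rw [Finset.mem_range, not_lt] at hi
  rw [fd_of_lt (by rw [natDegree_X_pow]; omega)]

theorem EB_eq (q : ℚ[X]) {N : ℕ} (h : q.natDegree < N) :
    EB q = ∑ i ∈ Finset.range N, fd q i 1 := by
  rw [← EBN_apply]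
  rw [q.as_sum_range' N h, map_sum, map_sum]
  refine Finset.sum_congr rfl fun j hj => ?_
  rw [EB_monomial, EBN_monomial (Finset.mem_range.1 hj)]

/-- functional equation -/
theorem EB_shift (q : ℚ[X]) : 2 * EB q - EB (q.comp (X + 1)) = q.eval 1 := by
  have hN : q.natDegree < q.natDegree + 1 := Nat.lt_succ_self _
  rw [EB_eq q hN, EB_eq (q.comp (X + 1)) (by rw [natDegree_shift]; exact hN)]
  have h1 : ∀ i, fd (q.comp (X + 1)) i 1 = fd q i 1 + fd q (i + 1) 1 := by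
    intro i
    rw [fd_shift, fd_succ]
    ring
  simp only [h1]
  have key : ∀ N : ℕ, 2 * ∑ i ∈ Finset.range N, fd q i 1 - ∑ i ∈ Finset.range N, (fd q i 1 + fd q (i + 1) 1) =
      fd q 0 1 - fd q N 1 := by
    intro N
    induction N with
    | zero => simp
    | succ N ih =>
      rw [Finset.sum_range_succ, Finset.sum_range_succ]
      linear_combination ih
  have h4 := key (q.natDegree + 1)
  rw [fd_of_lt hN, sub_zero, fd_zero] at h4
  exact h4

/-- the sum is not larger than the values, for every prime -/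
theorem norm_EB {p : ℕ} [Fact p.Prime] {q : ℚ[X]} {A : ℚ} (hA : 0 ≤ A)
    (h : ∀ n : ℤ, padicNorm p (q.eval (n : ℚ)) ≤ A) : padicNorm p (EB q) ≤ A := by
  rw [EB_eq q (Nat.lt_succ_self _)]
  refine padicNorm.sum_le' (fun i _ => ?_) hA
  refine norm_fd hA fun k _ => ?_
  have := h (1 + k)
  push_cast at this
  exact this

theorem norm_EB_derivative {p : ℕ} [Fact p.Prime] {f : ℚ[X]} {k : ℕ}
    (hd : f.natDegree < p ^ (k + 1)) {A : ℚ} (hA : 0 ≤ A)
    (h : ∀ n : ℤ, padicNorm p (f.eval (n : ℚ)) ≤ A) :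
    padicNorm p (EB (derivative f)) ≤ p ^ k * A :=
  norm_EB (by positivity) fun n => norm_derivative hd hA h n

/-- the linear form, as a function -/
def Lf (a b : ℕ) (α β γ : ℚ) (f : ℚ[X]) : ℚ :=
  ∑ k ∈ Finset.Icc a b, (2 : ℚ) ^ k * rs a b f k * (γ + α * Tz 1 k + β * Tz 2 k) -
    α * EB (pp a b f) + β * EB (derivative (pp a b f))

/-- the linear form `L` -/
def L (a b : ℕ) (α β γ : ℚ) : ℚ[X] →ₗ[ℚ] ℚ where
  toFun := Lf a b α β γ
  map_add' f g := by
    unfold Lf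
    simp only [rs_add, pp_add, map_add, mul_add, add_mul, Finset.sum_add_distrib]
    ring
  map_smul' c f := by
    unfold Lf
    simp only [rs_smul, pp_smul, map_smul, smul_eq_mul, RingHom.id_apply]
    rw [mul_add, mul_sub, Finset.mul_sum]
    have h1 : ∑ k ∈ Finset.Icc a b, (2 : ℚ) ^ k * (c * rs a b f k) * (γ + α * Tz 1 k + β * Tz 2 k) =
        ∑ k ∈ Finset.Icc a b, c * ((2 : ℚ) ^ k * rs a b f k * (γ + α * Tz 1 k + β * Tz 2 k)) :=
      Finset.sum_congr rfl fun k _ => by ring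
    rw [h1]
    ring

/-- Hankel determinant of size `m` -/
def DD (a b m : ℕ) (α β γ : ℚ) : ℚ :=
  (Matrix.of fun i j : Fin m => L a b α β γ (X ^ ((i : ℕ) + (j : ℕ)))).det

/-- `Li₂(1/2)` -/
def dilog : ℝ := ∑' s : ℕ, (1 / 2 : ℝ) ^ (s + 1) / ((s : ℝ) + 1) ^ 2

end

end Pool.Agent.TH50.DL
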