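import Pool.Agent.TH50.DL.Defs
import Pool.Agent.H422R2.LP.PMain

/-! `P_main` for `z = 1/2` from the bounds at the single primes (port of `H422R2/LP/PMain.lean`). -/

open Filter Topology Finset

namespace Pool.Agent.TH50.DL.PM

open Pool.Agent.LP (wl dB)
open Pool.Agent.LP.PM Pool.Agent.TH50.DL

noncomputable section

/-- single prime bound -/
def EEz (n C p : ℕ) : ℝ :=
  (if p = 2 then ((padicValNat 2 (dB n) : ℝ) - 9 * (n : ℝ) ^ 2 + C * n * Nat.log 2 n) * Real.log 2 else 0) +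
    (if p ^ 2 ≤ 5 * n + 1 then 3 * (4 * (n : ℝ) + 1) * Real.log (5 * n + 1) else 0)

theorem P_main_of
    (P_large : ∀ {n p m : ℕ} [Fact p.Prime], 1 ≤ n → p ≠ 2 → 5 * n + 1 < p ^ 2 →
      4 * n - 1 ≤ m → m ≤ 4 * n + 1 → ∀ α β γ : ℤ,
      padicNorm p (DD n (5 * n) m α β γ) ≤
        (p : ℚ) ^ (((∑ l ∈ Finset.range (4 * n + 1), wl n p l : ℕ) : ℤ) + 4 * padicValNat p (5 * n).factorial -
          padicValNat p (dB n)))
    (P_small : ∀ {n p m : ℕ} [Fact p.Prime], 1 ≤ n → p ≠ 2 →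
      4 * n - 1 ≤ m → m ≤ 4 * n + 1 → ∀ α β γ : ℤ,
      padicNorm p (DD n (5 * n) m α β γ) ≤
        (p : ℚ) ^ (((3 * Nat.log p (5 * n + 1) * (4 * n + 1) : ℕ) : ℤ) + 4 * padicValNat p (5 * n).factorial -
          padicValNat p (dB n)))
    (P_two : ∃ C : ℕ, ∀ {n m : ℕ}, 2 ≤ n → 4 * n - 1 ≤ m → m ≤ 4 * n + 1 → ∀ α β γ : ℤ,
      padicNorm 2 (DD n (5 * n) m α β γ) ≤
        (2 : ℚ) ^ (((C * n * Nat.log 2 n : ℕ) : ℤ) - ((9 * n ^ 2 : ℕ) : ℤ))) :
    ∀ᶠ n : ℕ in atTop, ∀ m : ℕ, 4 * n - 1 ≤ m → m ≤ 4 * n + 1 → ∀ α β γ : ℤ,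
      DD n (5 * n) m α β γ ≠ 0 →
      ∑ p ∈ (Finset.range (5 * n + 1)).filter Nat.Prime,
        Real.log ((padicNorm p (DD n (5 * n) m α β γ) : ℚ) : ℝ) ≤
      -(4 * (n : ℝ) ^ 2 * Real.log n) + 20.3 * (n : ℝ) ^ 2 := by
  obtain ⟨C, hC⟩ := P_two
  obtain ⟨K, hK, hKs⟩ := sum_wl (1 / 1000) (by norm_num)
  -- the analytic remainder
  have hrem : ∀ᶠ n : ℕ in atTop,
      (1 + 1 / 1000) * (8 * (n : ℝ) + 1) + 2 * K * (4 * n + 1) + 20 * n * Real.log (5 * n + 1) +
        ((n : ℝ) * Real.log 2 + (4 * n + 1) * Real.log (5 * n + 1) + C * n * Real.log (5 * n + 1)) +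
        (Real.sqrt (5 * n + 1) + 1) * (3 * (4 * (n : ℝ) + 1) * Real.log (5 * n + 1)) ≤ 0.18 * (n : ℝ) ^ 2 := by
    have hε : (0 : ℝ) < 1 / (10000 * (C + 26)) := by positivity
    have h1 := (isLittleO_log_rpow_atTop (r := 1 / 2) (by norm_num)).def hε
    have h2 : Tendsto (fun n : ℕ => (5 * (n : ℝ) + 1)) atTop atTop :=
      tendsto_atTop_add_const_right _ _ ((tendsto_natCast_atTop_atTop).const_mul_atTop (by norm_num))
    have h3 := h2.eventually h1
    filter_upwards [h3, eventually_ge_atTop 1, eventually_ge_atTop (⌈2000 * (K + 1)⌉₊)] with n hn hn1 hnK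
    have hn1' : (1 : ℝ) ≤ n := by exact_mod_cast hn1
    have hnK' : 2000 * (K + 1) ≤ (n : ℝ) := (Nat.le_ceil _).trans (by exact_mod_cast hnK)
    rw [← Real.sqrt_eq_rpow] at hn
    set L := Real.log (5 * (n : ℝ) + 1) with hL
    have hL0 : 0 ≤ L := Real.log_nonneg (by linarith)
    have hs0 : 0 ≤ Real.sqrt (5 * (n : ℝ) + 1) := Real.sqrt_nonneg _
    rw [Real.norm_of_nonneg hL0, Real.norm_of_nonneg hs0] at hn
    set r := Real.sqrt (n : ℝ) with hr
    have hr2 : r ^ 2 = n := Real.sq_sqrt (by linarith)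
    have hr0 : 0 ≤ r := Real.sqrt_nonneg _
    have hr1 : 1 ≤ r := by
      rw [hr]
      exact Real.one_le_sqrt.2 hn1'
    have hsr : Real.sqrt (5 * (n : ℝ) + 1) ≤ 3 * r := by
      rw [show 3 * r = Real.sqrt ((3 * r) ^ 2) from (Real.sqrt_sq (by positivity)).symm]
      refine Real.sqrt_le_sqrt ?_
      rw [mul_pow, hr2]
      linarith
    have hLr : L * (C + 26) ≤ 3 / 10000 * r := by
      have h4 : L ≤ 1 / (10000 * ((C : ℝ) + 26)) * (3 * r) :=
        hn.trans (mul_le_mul_of_nonneg_left hsr hε.le)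
      calc L * (C + 26) ≤ 1 / (10000 * ((C : ℝ) + 26)) * (3 * r) * (C + 26) :=
            mul_le_mul_of_nonneg_right h4 (by positivity)
        _ = 3 / 10000 * r := by field_simp
    have hC0 : (0 : ℝ) ≤ C := Nat.cast_nonneg _
    have hLC : L * C ≤ 3 / 10000 * r := by nlinarith
    have hL26 : L * 26 ≤ 3 / 10000 * r := by nlinarith
    have hl2 : Real.log 2 ≤ 1 := by linarith [Real.log_two_lt_d9]
    have hrn : r ≤ n := by nlinarith
    have t1 : (1 + 1 / 1000) * (8 * (n : ℝ) + 1) + 2 * K * (4 * n + 1) ≤ 0.01 * (n : ℝ) ^ 2 := by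
      nlinarith
    have t2 : 20 * (n : ℝ) * L ≤ 0.01 * (n : ℝ) ^ 2 := by nlinarith
    have t3 : (n : ℝ) * Real.log 2 ≤ 0.01 * (n : ℝ) ^ 2 := by nlinarith
    have t4 : (4 * (n : ℝ) + 1) * L ≤ 0.01 * (n : ℝ) ^ 2 := by nlinarith
    have t5 : (C : ℝ) * n * L ≤ 0.01 * (n : ℝ) ^ 2 := by nlinarith
    have t6 : (Real.sqrt (5 * (n : ℝ) + 1) + 1) * (3 * (4 * (n : ℝ) + 1) * L) ≤ 0.1 * (n : ℝ) ^ 2 := by
      have a1 : Real.sqrt (5 * (n : ℝ) + 1) + 1 ≤ 4 * r := by linarith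
      have a2 : 3 * (4 * (n : ℝ) + 1) * L ≤ 15 * n * L := by nlinarith
      calc _ ≤ 4 * r * (15 * n * L) := mul_le_mul a1 a2 (by positivity) (by positivity)
        _ = 60 * n * (r * L) := by ring
        _ ≤ 60 * n * (r * (3 / 260000 * r)) := by
            refine mul_le_mul_of_nonneg_left (mul_le_mul_of_nonneg_left ?_ hr0) (by positivity)
            linarith
        _ = 60 * 3 / 260000 * n * r ^ 2 := by ring
        _ ≤ 0.1 * (n : ℝ) ^ 2 := by
            rw [hr2]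
            nlinarith
    linarith
  filter_upwards [hrem, eventually_ge_atTop 2] with n hn hn2 m hm1 hm2 α β γ hD
  set D := DD n (5 * n) m α β γ with hDdef
  set S := (Finset.range (5 * n + 1)).filter Nat.Prime with hS
  have hn1 : 1 ≤ n := by omega
  have hn0 : (1 : ℝ) ≤ n := by exact_mod_cast hn1
  have hL0 : 0 ≤ Real.log (5 * (n : ℝ) + 1) := Real.log_nonneg (by linarith)
  have hl2 : 0 ≤ Real.log 2 := Real.log_nonneg (by norm_num)
  -- single primes
  have hsingle : ∀ p ∈ S, Real.log ((padicNorm p D : ℚ) : ℝ) ≤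
      ((∑ l ∈ range (4 * n + 1), wl n p l : ℕ) : ℝ) * Real.log p +
        4 * ((padicValNat p (5 * n).factorial : ℝ) * Real.log p) -
        (padicValNat p (dB n) : ℝ) * Real.log p + EEz n C p := by
    intro p hp
    rw [hS, mem_filter] at hp
    have hpp := hp.2
    have : Fact p.Prime := ⟨hpp⟩
    have hlp : 0 ≤ Real.log p := Real.log_natCast_nonneg p
    have hne : padicNorm p D ≠ 0 := padicNorm.nonzero hD
    have hW : 0 ≤ ((∑ l ∈ range (4 * n + 1), wl n p l : ℕ) : ℝ) * Real.log p := by positivity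
    have hV : 0 ≤ (padicValNat p (5 * n).factorial : ℝ) * Real.log p := by positivity
    by_cases h2 : p = 2
    · subst h2
      have h3 := hC (n := n) (m := m) hn2 hm1 hm2 α β γ
      have h4 : padicNorm 2 D ≤ ((2 : ℕ) : ℚ) ^ (((C * n * Nat.log 2 n : ℕ) : ℤ) - ((9 * n ^ 2 : ℕ) : ℤ)) := by
        exact_mod_cast h3
      have h5 := log_zpow_bound Nat.prime_two hne h4 (padicNorm.nonneg _)
      have h6 : ((((C * n * Nat.log 2 n : ℕ) : ℤ) - ((9 * n ^ 2 : ℕ) : ℤ) : ℤ) : ℝ) =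
          C * n * Nat.log 2 n - 9 * (n : ℝ) ^ 2 := by
        push_cast
        ring
      rw [h6] at h5
      have h9 : EEz n C 2 ≥ ((padicValNat 2 (dB n) : ℝ) - 9 * (n : ℝ) ^ 2 + C * n * Nat.log 2 n) * Real.log 2 := by
        unfold EEz
        rw [if_pos rfl]
        refine le_add_of_nonneg_right ?_
        split_ifs <;> positivity
      have e2 : ((2 : ℕ) : ℝ) = 2 := by norm_num
      rw [e2] at h5 hW hV ⊢
      linarith
    · have hE0 : EEz n C p = (if p ^ 2 ≤ 5 * n + 1 then 3 * (4 * (n : ℝ) + 1) * Real.log (5 * n + 1) else 0) := by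
        unfold EEz
        rw [if_neg h2, zero_add]
      rw [hE0]
      by_cases h3 : p ^ 2 ≤ 5 * n + 1
      · rw [if_pos h3]
        have h4 := log_zpow_bound hpp hne (P_small (n := n) (p := p) (m := m) hn1 h2 hm1 hm2 α β γ)
          (padicNorm.nonneg _)
        have h5 : (Nat.log p (5 * n + 1) : ℝ) * Real.log p ≤ Real.log (5 * n + 1) := by
          have h6 : p ^ Nat.log p (5 * n + 1) ≤ 5 * n + 1 := Nat.pow_log_le_self p (by omega)
          have h7 : ((p : ℝ)) ^ Nat.log p (5 * n + 1) ≤ 5 * (n : ℝ) + 1 := by exact_mod_cast h6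
          have h8 := Real.log_le_log (by have := hpp.pos; positivity) h7
          rwa [Real.log_pow] at h8
        have h6 := mul_le_mul_of_nonneg_left h5 (show (0 : ℝ) ≤ 3 * (4 * (n : ℝ) + 1) by positivity)
        rw [Int.cast_sub, Int.cast_add, Int.cast_mul, Int.cast_natCast, Int.cast_natCast, Int.cast_natCast] at h4
        have e3 : ((3 * Nat.log p (5 * n + 1) * (4 * n + 1) : ℕ) : ℝ) =
            3 * (4 * (n : ℝ) + 1) * Nat.log p (5 * n + 1) := by
          rw [Nat.cast_mul, Nat.cast_mul, Nat.cast_add, Nat.cast_mul]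
          norm_num
          ring
        have e4 : ((4 : ℤ) : ℝ) = 4 := by norm_num
        rw [e3, e4] at h4
        linarith
      · rw [if_neg h3]
        have h4 := log_zpow_bound hpp hne (P_large (n := n) (p := p) (m := m) hn1 h2 (by omega) hm1 hm2 α β γ)
          (padicNorm.nonneg _)
        rw [Int.cast_sub, Int.cast_add, Int.cast_mul, Int.cast_natCast, Int.cast_natCast, Int.cast_natCast] at h4
        have e4 : ((4 : ℤ) : ℝ) = 4 := by norm_num
        rw [e4] at h4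
        linarith
  refine (sum_le_sum hsingle).trans ?_
  rw [sum_add_distrib, sum_sub_distrib, sum_add_distrib, ← mul_sum]
  rw [← log_eq_sum_val (Nat.factorial_ne_zero (5 * n)) (fun p hp h => (hp.dvd_factorial).1 h),
    ← log_eq_sum_val (dB_ne_zero n) (fun p hp h => dB_primes hp h)]
  have hw := hKs n
  have hdB := (GG_value hn1).trans (log_dB n)
  have hfac : Real.log ((5 * n).factorial : ℝ) ≤ 5 * n * Real.log (5 * n + 1) := by
    have h1 : ((5 * n).factorial : ℝ) ≤ (5 * (n : ℝ) + 1) ^ (5 * n) := by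
      have h2 : (5 * n).factorial ≤ (5 * n + 1) ^ (5 * n) :=
        (Nat.factorial_le_pow (5 * n)).trans (Nat.pow_le_pow_left (by omega) _)
      exact_mod_cast h2
    have h3 := Real.log_le_log (by positivity) h1
    rw [Real.log_pow] at h3
    push_cast at h3
    exact h3
  have hEE : ∑ p ∈ S, EEz n C p ≤
      ((padicValNat 2 (dB n) : ℝ) - 9 * (n : ℝ) ^ 2 + C * n * Nat.log 2 n) * Real.log 2 +
        (Real.sqrt (5 * n + 1) + 1) * (3 * (4 * (n : ℝ) + 1) * Real.log (5 * n + 1)) := by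
    unfold EEz
    rw [sum_add_distrib]
    refine add_le_add ?_ ?_
    · rw [sum_ite_eq' S 2, if_pos]
      rw [hS, mem_filter, mem_range]
      exact ⟨by omega, Nat.prime_two⟩
    · rw [← sum_filter, sum_const, nsmul_eq_mul]
      refine mul_le_mul_of_nonneg_right ?_ (by positivity)
      have h1 : (S.filter fun p => p ^ 2 ≤ 5 * n + 1) ⊆ range (Nat.sqrt (5 * n + 1) + 1) := by
        intro p hp
        rw [mem_filter] at hp
        rw [mem_range]
        exact Nat.lt_succ_of_le (Nat.le_sqrt'.2 hp.2)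
      have h2 := card_le_card h1
      rw [card_range] at h2
      have h3 : ((Nat.sqrt (5 * n + 1) : ℕ) : ℝ) ≤ Real.sqrt (5 * n + 1) := by
        have := Real.nat_sqrt_le_real_sqrt (a := 5 * n + 1)
        push_cast at this
        exact this
      have h4 : (((S.filter fun p => p ^ 2 ≤ 5 * n + 1).card : ℕ) : ℝ) ≤ ((Nat.sqrt (5 * n + 1) + 1 : ℕ) : ℝ) := by
        exact_mod_cast h2
      push_cast at h4
      linarith
  have hv2 : (padicValNat 2 (dB n) : ℝ) * Real.log 2 ≤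
      4 * (n : ℝ) ^ 2 * Real.log 2 + n * Real.log 2 + (4 * n + 1) * Real.log (5 * n + 1) := by
    have h1 : (padicValNat 2 (dB n) : ℝ) ≤ (4 * n + 1) * (n + Nat.log 2 (5 * n)) := by
      exact_mod_cast val_two_dB n
    have h2 : (Nat.log 2 (5 * n) : ℝ) * Real.log 2 ≤ Real.log (5 * n + 1) := by
      have h6 : 2 ^ Nat.log 2 (5 * n) ≤ 5 * n := Nat.pow_log_le_self 2 (by omega)
      have h7 : (2 : ℝ) ^ Nat.log 2 (5 * n) ≤ 5 * (n : ℝ) + 1 := by
        have : (2 : ℝ) ^ Nat.log 2 (5 * n) ≤ 5 * (n : ℝ) := by exact_mod_cast h6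
        linarith
      have h8 := Real.log_le_log (by positivity) h7
      rwa [Real.log_pow] at h8
    have h3 := mul_le_mul_of_nonneg_right h1 hl2
    have h4 := mul_le_mul_of_nonneg_left h2 (show (0 : ℝ) ≤ 4 * (n : ℝ) + 1 by positivity)
    linarith
  have hlog2n : (C : ℝ) * n * Nat.log 2 n * Real.log 2 ≤ C * n * Real.log (5 * n + 1) := by
    have h2 : (Nat.log 2 n : ℝ) * Real.log 2 ≤ Real.log (5 * n + 1) := by
      have h6 : 2 ^ Nat.log 2 n ≤ n := Nat.pow_log_le_self 2 (by omega)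
      have h7 : (2 : ℝ) ^ Nat.log 2 n ≤ 5 * (n : ℝ) + 1 := by
        have : (2 : ℝ) ^ Nat.log 2 n ≤ (n : ℝ) := by exact_mod_cast h6
        linarith
      have h8 := Real.log_le_log (by positivity) h7
      rwa [Real.log_pow] at h8
    have := mul_le_mul_of_nonneg_left h2 (show (0 : ℝ) ≤ (C : ℝ) * n by positivity)
    linarith
  have hlog2 := Real.log_two_lt_d9
  have hlog2' := Real.log_two_gt_d9
  have hnn : (0 : ℝ) ≤ (n : ℝ) ^ 2 := by positivity
  have e1 : 4 * (n : ℝ) ^ 2 * Real.log 2 - 9 * (n : ℝ) ^ 2 * Real.log 2 ≤ -3.4657 * (n : ℝ) ^ 2 := by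
    nlinarith
  have hvv : ((padicValNat 2 (dB n) : ℝ) - 9 * (n : ℝ) ^ 2 + C * n * Nat.log 2 n) * Real.log 2 =
      (padicValNat 2 (dB n) : ℝ) * Real.log 2 - 9 * (n : ℝ) ^ 2 * Real.log 2 +
        C * n * Nat.log 2 n * Real.log 2 := by ring
  rw [hvv] at hEE
  linarith

end

end Pool.Agent.TH50.DL.PM
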