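import Pool.Agent.TH50.DL.TwoC
import Pool.Agent.TH50.DL.PM
import Pool.Agent.TH634.DL.NMain
import Pool.Agent.TH11.DL.PL
import Pool.Agent.H336R2.HD.A5

/-!
# Linear independence of `1, log 2, Li₂(1/2)`: conclusion from the archimedean bound
-/

open Polynomial Filter Topology

namespace Pool.Agent.TH50.DL

open Pool.Agent.LP (wl dB)

noncomputable section

/-- the finite part -/
theorem P_main : ∀ᶠ n : ℕ in atTop, ∀ m : ℕ, 4 * n - 1 ≤ m → m ≤ 4 * n + 1 → ∀ α β γ : ℤ,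
      DD n (5 * n) m α β γ ≠ 0 →
      ∑ p ∈ (Finset.range (5 * n + 1)).filter Nat.Prime,
        Real.log ((padicNorm p (DD n (5 * n) m α β γ) : ℚ) : ℝ) ≤
      -(4 * (n : ℝ) ^ 2 * Real.log n) + 20.3 * (n : ℝ) ^ 2 := by
  refine PM.P_main_of ?_ ?_ ?_
  · intro n p m _ hn h2 hp hm1 hm α β γ
    exact TH11.DL.P_large hn h2 hp hm1 hm α β γ
  · intro n p m _ hn h2 hm1 hm α β γ
    exact TH11.DL.P_small hn h2 hm1 hm α β γ
  · exact Two.P_two

/-- the archimedean bound that is needed -/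
def Arch (α β γ : ℤ) : Prop := ∃ C : ℝ, 0 < C ∧ ∃ᶠ n : ℕ in atTop, ∀ m : ℕ, 4 * n - 1 ≤ m → m ≤ 4 * n + 1 →
    |((DD n (5 * n) m α β γ : ℚ) : ℝ)| ≤ C ^ m * Real.exp (4 * (n : ℝ) ^ 2 * Real.log n - 20.35 * (n : ℝ) ^ 2)

theorem no_relation {α β γ : ℤ} (hA : Arch α β γ) : α = 0 ∧ β = 0 := by
  by_contra hcon
  have hne : ((α : ℤ) : ℚ) ≠ 0 ∨ ((β : ℤ) : ℚ) ≠ 0 := by
    by_contra h
    push Not at h
    exact hcon ⟨by exact_mod_cast h.1, by exact_mod_cast h.2⟩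
  obtain ⟨C, hC, hfreq⟩ := hA
  -- `C ≥ 1` without loss
  set c : ℝ := max C 1 with hc
  have hc1 : 1 ≤ c := le_max_right _ _
  have hlc : 0 ≤ Real.log c := Real.log_nonneg hc1
  have hev := hfreq.and_eventually ((P_main.and (eventually_ge_atTop 1)).and
    (eventually_ge_atTop (⌈200 * Real.log c⌉₊ + 1)))
  obtain ⟨n, hB, ⟨hPn, hn1⟩, hnc⟩ := hev.exists
  have hnlow : 200 * Real.log c < (n : ℝ) := by
    have h1 : 200 * Real.log c ≤ ⌈200 * Real.log c⌉₊ := Nat.le_ceil _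
    have h2 : ((⌈200 * Real.log c⌉₊ + 1 : ℕ) : ℝ) ≤ n := by exact_mod_cast hnc
    push_cast at h2
    linarith
  obtain ⟨m, hm1, hm2, hD⟩ := TH634.DL.N_main hn1 (α : ℚ) (β : ℚ) (γ : ℚ) hne
  have hA := hB m hm1 hm2
  have hP := hPn m hm1 hm2 α β γ hD
  set z : ℚ := DD n (5 * n) m α β γ with hz
  set S : Finset ℕ := (Finset.range (5 * n + 1)).filter Nat.Prime with hS
  have hpf := Pool.Agent.H336R2.HD.A5_prod_formula z hD S (fun p hp => (Finset.mem_filter.1 hp).2)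
    (fun p => ((padicNorm p z : ℚ) : ℝ)) (fun p _ => le_rfl) (fun p hp hpS => by
      rw [hS, Finset.mem_filter, Finset.mem_range] at hpS
      have h1 : 5 * n < p := by
        by_contra h; exact hpS ⟨by omega, hp⟩
      have : Fact p.Prime := ⟨hp⟩
      exact TH11.DL.P_big hn1 h1 hm2 α β γ)
  have hpos : ∀ p ∈ S, 0 < ((padicNorm p z : ℚ) : ℝ) := by
    intro p hp
    have : Fact p.Prime := ⟨(Finset.mem_filter.1 hp).2⟩
    have h1 : 0 < padicNorm p z := lt_of_le_of_ne (padicNorm.nonneg _) (Ne.symm (padicNorm.nonzero hD))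
    exact_mod_cast h1
  have hprodpos : 0 < ∏ p ∈ S, ((padicNorm p z : ℚ) : ℝ) := Finset.prod_pos hpos
  have hzabs : 0 < |(z : ℝ)| := abs_pos.2 (by exact_mod_cast hD)
  have hlog := Real.log_nonneg hpf
  rw [Real.log_mul hzabs.ne' hprodpos.ne', Real.log_prod (fun p hp => (hpos p hp).ne')] at hlog
  have hcm : C ^ m ≤ c ^ m := pow_le_pow_left₀ hC.le (le_max_left _ _) m
  have hlz : Real.log |(z : ℝ)| ≤ m * Real.log c + (4 * (n : ℝ) ^ 2 * Real.log n - 20.35 * (n : ℝ) ^ 2) := by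
    calc Real.log |(z : ℝ)| ≤ Real.log (c ^ m * Real.exp (4 * (n : ℝ) ^ 2 * Real.log n - 20.35 * (n : ℝ) ^ 2)) := by
          refine Real.log_le_log hzabs (hA.trans ?_)
          exact mul_le_mul_of_nonneg_right hcm (Real.exp_pos _).le
      _ = m * Real.log c + (4 * (n : ℝ) ^ 2 * Real.log n - 20.35 * (n : ℝ) ^ 2) := by
          rw [Real.log_mul (by positivity) (Real.exp_pos _).ne', Real.log_pow, Real.log_exp]
  have hn0 : (1 : ℝ) ≤ n := by exact_mod_cast hn1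
  have hmq : (m : ℝ) * Real.log c ≤ 5 * n * Real.log c := by
    apply mul_le_mul_of_nonneg_right _ hlc
    have : (m : ℝ) ≤ 4 * n + 1 := by exact_mod_cast hm2
    linarith
  have h1 : 5 * n * Real.log c ≤ 0.025 * (n : ℝ) ^ 2 := by nlinarith
  have h2 : 0 < (n : ℝ) ^ 2 := by positivity
  linarith

end

end Pool.Agent.TH50.DL
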