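import Pool.Agent.TH50.DL.Concl
import Pool.Agent.TH844.DL.Final

/-!
# `1, log 2, Li₂(1/2)`: the archimedean bound in the form used by the conclusion
-/

open Filter Topology

namespace Pool.Agent.TH50.DL

theorem archAll : ArchAll := by
  intro α β γ h
  obtain ⟨c, hc, N0, hN⟩ := TH844.DL.arch α β γ h
  refine ⟨c, hc, ?_⟩
  rw [frequently_atTop]
  intro a
  obtain ⟨N, hN1⟩ : ∃ N : ℕ, N = max N0 a := ⟨_, rfl⟩
  refine ⟨10000 * N, by omega, ?_⟩
  intro m hm1 hm2
  have h1 := hN N (by omega) m hm1 hm2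
  refine h1.trans ?_
  refine mul_le_mul_of_nonneg_left ?_ (by positivity)
  rw [Real.exp_le_exp]
  push_cast
  have h0 : (0 : ℝ) ≤ (10000 * (N : ℝ)) ^ 2 := by positivity
  linarith

end Pool.Agent.TH50.DL
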