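import Pool.Agent.TH50.DL.Defs
import Pool.Agent.H422R2.LP.PTwo

/-!
# The 2-adic bound for the Hankel determinants, `z = 1/2`: the general functional and its shift
-/

open Polynomial

namespace Pool.Agent.TH50.DL.Two

open Pool.Agent.LP Pool.Agent.LP.T2

noncomputable section

/-- residue of `g / Pn c b` at `-k` -/
def rho (c b : ℕ) (g : ℚ[X]) (k : ℕ) : ℚ := g.eval (-(k : ℚ)) / ∏ j ∈ (Finset.Icc c b).erase k, ((j : ℚ) - k)

/-- the functional `g ↦ L(g / Pn c b)` -/
def LT (c b : ℕ) (α β γ : ℚ) (g : ℚ[X]) : ℚ :=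
  ∑ k ∈ Finset.Icc c b, (2 : ℚ) ^ k * rho c b g k * (γ + α * Tz 1 k + β * Tz 2 k) -
    α * EB (g /ₘ Pn c b) + β * EB (derivative (g /ₘ Pn c b))

lemma L_eq_LT (a b : ℕ) (α β γ : ℚ) (f : ℚ[X]) : L a b α β γ f = LT a b α β γ (An a * f) := rfl

lemma Pn_split' {a c b : ℕ} (hac : a ≤ c) (hcb : c ≤ b) : Pn a b = EE a c * Pn c b := by
  rw [Pn_eq, Pn_eq, EE_mul hac (by omega)]

lemma prod_split {a c b k : ℕ} (hac : a ≤ c) (hk : k ∈ Finset.Icc c b) :
    ∏ j ∈ (Finset.Icc a b).erase k, ((j : ℚ) - k) =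
      (EE a c).eval (-(k : ℚ)) * ∏ j ∈ (Finset.Icc c b).erase k, ((j : ℚ) - k) := by
  rw [Finset.mem_Icc] at hk
  have hs : (Finset.Icc a b).erase k = Finset.Ico a c ∪ (Finset.Icc c b).erase k := by
    ext x
    simp only [Finset.mem_erase, Finset.mem_Ico, Finset.mem_union, Finset.mem_Icc]
    omega
  have hd : Disjoint (Finset.Ico a c) ((Finset.Icc c b).erase k) := by
    rw [Finset.disjoint_left]
    intro x hx hx'
    rw [Finset.mem_Ico] at hx
    rw [Finset.mem_erase, Finset.mem_Icc] at hx'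
    omega
  rw [hs, Finset.prod_union hd]
  congr 1
  unfold EE
  rw [eval_prod]
  refine Finset.prod_congr rfl fun j _ => ?_
  rw [eval_add, eval_X, eval_C]
  ring

lemma EE_ne {a c k : ℕ} (hk : c ≤ k) : (EE a c).eval (-(k : ℚ)) ≠ 0 := by
  unfold EE
  rw [eval_prod]
  refine Finset.prod_ne_zero_iff.2 fun l hl => ?_
  rw [Finset.mem_Ico] at hl
  rw [eval_add, eval_X, eval_C]
  intro h0
  have : (l : ℚ) = k := by linarith
  have : l = k := by exact_mod_cast this
  omega

lemma LT_cancel {a c b : ℕ} (hac : a ≤ c) (hcb : c ≤ b) (α β γ : ℚ) (g : ℚ[X]) :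
    LT a b α β γ (EE a c * g) = LT c b α β γ g := by
  unfold LT
  have h1 : (EE a c * g) /ₘ Pn a b = g /ₘ Pn c b := by
    rw [Pn_split' hac hcb, mul_comm (EE a c) g, mul_comm (EE a c) (Pn c b)]
    exact divByMonic_cancel (Pn_monic _ _) (EE_monic _ _)
  rw [h1]
  congr 2
  have hsub : Finset.Icc c b ⊆ Finset.Icc a b := Finset.Icc_subset_Icc hac le_rfl
  rw [← Finset.sum_subset hsub]
  · refine Finset.sum_congr rfl fun k hk => ?_
    have h2 : rho a b (EE a c * g) k = rho c b g k := by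
      unfold rho
      rw [prod_split hac hk, eval_mul]
      exact mul_div_mul_left _ _ (EE_ne (Finset.mem_Icc.1 hk).1)
    rw [h2]
  · intro k hk hk'
    rw [Finset.mem_Icc] at hk hk'
    have h2 : rho a b (EE a c * g) k = 0 := by
      unfold rho
      rw [eval_mul, EE_eval_neg hk.1 (by omega), zero_mul, zero_div]
    rw [h2]
    ring

/-! ### partial fractions -/

/-- node polynomial without `k` -/
def ek (c b k : ℕ) : ℚ[X] := ∏ j ∈ (Finset.Icc c b).erase k, (X + C (j : ℚ))

lemma mul_ek {c b k : ℕ} (hk : k ∈ Finset.Icc c b) : (X + C (k : ℚ)) * ek c b k = Pn c b := by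
  unfold ek Pn
  exact Finset.mul_prod_erase (Finset.Icc c b) (fun j : ℕ => (X + C (j : ℚ) : ℚ[X])) hk

lemma ek_eval_self (c b k : ℕ) : (ek c b k).eval (-(k : ℚ)) = ∏ j ∈ (Finset.Icc c b).erase k, ((j : ℚ) - k) := by
  unfold ek
  rw [eval_prod]
  refine Finset.prod_congr rfl fun j _ => ?_
  rw [eval_add, eval_X, eval_C]
  ring

lemma ek_eval_ne {c b k l : ℕ} (hl : l ∈ Finset.Icc c b) (hkl : l ≠ k) : (ek c b k).eval (-(l : ℚ)) = 0 := by
  unfold ek
  rw [eval_prod]
  refine Finset.prod_eq_zero (Finset.mem_erase.2 ⟨hkl, hl⟩) ?_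
  simp

lemma prod_ne (c b k : ℕ) : ∏ j ∈ (Finset.Icc c b).erase k, ((j : ℚ) - k) ≠ 0 := by
  refine Finset.prod_ne_zero_iff.2 fun j hj => ?_
  rw [sub_ne_zero]
  exact_mod_cast (Finset.mem_erase.1 hj).1

lemma Pn_natDegree (c b : ℕ) : (Pn c b).natDegree = (Finset.Icc c b).card := by
  unfold Pn
  rw [natDegree_prod_of_monic _ _ fun j _ => monic_X_add_C _]
  simp only [natDegree_X_add_C, Finset.sum_const, smul_eq_mul, mul_one]

lemma ek_monic (c b k : ℕ) : (ek c b k).Monic := monic_prod_of_monic _ _ fun _ _ => monic_X_add_C _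

lemma ek_degree {c b k : ℕ} (hk : k ∈ Finset.Icc c b) : (ek c b k).degree < (Pn c b).degree := by
  rw [← mul_ek hk, degree_mul, degree_X_add_C]
  have h0 : (ek c b k) ≠ 0 := (ek_monic c b k).ne_zero
  rw [degree_eq_natDegree h0]
  exact_mod_cast (by omega : (ek c b k).natDegree < 1 + (ek c b k).natDegree)

/-- partial fraction expansion -/
lemma pfrac (c b : ℕ) (g : ℚ[X]) :
    g = Pn c b * (g /ₘ Pn c b) + ∑ k ∈ Finset.Icc c b, C (rho c b g k) * ek c b k := by
  have h0 := modByMonic_add_div g (Pn c b)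
  suffices h : g %ₘ Pn c b = ∑ k ∈ Finset.Icc c b, C (rho c b g k) * ek c b k by
    rw [← h, add_comm]; exact h0.symm
  by_cases hcb : c ≤ b
  · refine eq_of_degrees_lt_of_eval_index_eq (s := Finset.Icc c b) (v := fun j : ℕ => -(j : ℚ)) ?_ ?_ ?_ ?_
    · intro x _ y _ hxy
      have : (x : ℚ) = y := neg_injective hxy
      exact_mod_cast this
    · have h1 := degree_modByMonic_lt g (Pn_monic c b)
      rwa [degree_eq_natDegree (Pn_monic c b).ne_zero, Pn_natDegree] at h1
    · refine (degree_sum_le _ _).trans_lt ?_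
      rw [Finset.sup_lt_iff (by exact WithBot.bot_lt_coe _)]
      intro k hk
      rw [← smul_eq_C_mul]
      refine lt_of_le_of_lt (degree_smul_le _ _) ?_
      have := ek_degree hk
      rwa [degree_eq_natDegree (Pn_monic c b).ne_zero, Pn_natDegree] at this
    · intro k hk
      have h1 : (g %ₘ Pn c b).eval (-(k : ℚ)) = g.eval (-(k : ℚ)) := by
        conv_rhs => rw [← h0]
        rw [eval_add, eval_mul, ← mul_ek hk, eval_mul]
        simp
      change (g %ₘ Pn c b).eval (-(k : ℚ)) = _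
      rw [h1, eval_finsetSum, Finset.sum_eq_single k]
      · rw [eval_mul, eval_C, ek_eval_self]
        unfold rho
        rw [div_mul_cancel₀ _ (prod_ne c b k)]
      · intro l hl hlk
        rw [eval_mul, ek_eval_ne hk (Ne.symm hlk), mul_zero]
      · intro h
        exact absurd hk h
  · have h1 : Finset.Icc c b = ∅ := Finset.Icc_eq_empty hcb
    rw [h1, Finset.sum_empty]
    have h2 : Pn c b = 1 := by
      unfold Pn
      rw [h1, Finset.prod_empty]
    rw [h2, modByMonic_one]

/-- values of `g / Pn` and of its derivative at a double zero `-u`, `u < c` -/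
lemma pf_zero {c b u : ℕ} (hu : u < c) {g : ℚ[X]} (h0 : g.eval (-(u : ℚ)) = 0)
    (h1 : (derivative g).eval (-(u : ℚ)) = 0) :
    (g /ₘ Pn c b).eval (-(u : ℚ)) + ∑ k ∈ Finset.Icc c b, rho c b g k / ((k : ℚ) - u) = 0 ∧
    (derivative (g /ₘ Pn c b)).eval (-(u : ℚ)) - ∑ k ∈ Finset.Icc c b, rho c b g k / ((k : ℚ) - u) ^ 2 = 0 := by
  set q := g /ₘ Pn c b with hq
  set x : ℚ := -(u : ℚ) with hx
  have hP : (Pn c b).eval x ≠ 0 := by
    unfold Pn
    rw [eval_prod]
    refine Finset.prod_ne_zero_iff.2 fun l hl => ?_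
    rw [Finset.mem_Icc] at hl
    rw [eval_add, eval_X, eval_C]
    intro h
    have : (l : ℚ) = u := by rw [hx] at h; linarith
    have : l = u := by exact_mod_cast this
    omega
  have hku : ∀ k ∈ Finset.Icc c b, ((k : ℚ) - u) ≠ 0 := by
    intro k hk h
    rw [Finset.mem_Icc] at hk
    have : (k : ℚ) = u := by linarith
    have : k = u := by exact_mod_cast this
    omega
  have he : ∀ k ∈ Finset.Icc c b, (ek c b k).eval x = (Pn c b).eval x / ((k : ℚ) - u) := by
    intro k hk
    rw [eq_div_iff (hku k hk)]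
    have := congrArg (eval x) (mul_ek hk)
    rw [eval_mul, eval_add, eval_X, eval_C] at this
    rw [← this, hx]
    ring
  have he' : ∀ k ∈ Finset.Icc c b, (derivative (ek c b k)).eval x =
      (derivative (Pn c b)).eval x / ((k : ℚ) - u) - (Pn c b).eval x / ((k : ℚ) - u) ^ 2 := by
    intro k hk
    have h2 := congrArg (fun p => (derivative p).eval x) (mul_ek hk)
    simp only [derivative_mul, derivative_add, derivative_X, derivative_C, add_zero, one_mul, eval_add,
      eval_mul, eval_X, eval_C] at h2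
    have h3 := he k hk
    have h4 := hku k hk
    have h5 : x + (k : ℚ) = (k : ℚ) - u := by rw [hx]; ring
    rw [h5, h3] at h2
    rw [← h2]
    field_simp
    ring
  have e0 := congrArg (eval x) (pfrac c b g)
  rw [h0, eval_add, eval_mul, eval_finsetSum, ← hq] at e0
  have e1 := congrArg (fun p => (derivative p).eval x) (pfrac c b g)
  simp only [derivative_add, derivative_mul, derivative_sum, derivative_C, zero_mul, zero_add, eval_add,
    eval_mul, eval_finsetSum, eval_C, ← hq] at e1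
  rw [h1] at e1
  have s0 : ∑ k ∈ Finset.Icc c b, (C (rho c b g k) * ek c b k).eval x =
      (Pn c b).eval x * ∑ k ∈ Finset.Icc c b, rho c b g k / ((k : ℚ) - u) := by
    rw [Finset.mul_sum]
    refine Finset.sum_congr rfl fun k hk => ?_
    rw [eval_mul, eval_C, he k hk]
    ring
  have s1 : ∑ k ∈ Finset.Icc c b, rho c b g k * (derivative (ek c b k)).eval x =
      (derivative (Pn c b)).eval x * ∑ k ∈ Finset.Icc c b, rho c b g k / ((k : ℚ) - u) -
        (Pn c b).eval x * ∑ k ∈ Finset.Icc c b, rho c b g k / ((k : ℚ) - u) ^ 2 := by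
    rw [Finset.mul_sum, Finset.mul_sum, ← Finset.sum_sub_distrib]
    refine Finset.sum_congr rfl fun k hk => ?_
    rw [he' k hk]
    ring
  rw [s0] at e0
  rw [s1] at e1
  have a0 : q.eval x + ∑ k ∈ Finset.Icc c b, rho c b g k / ((k : ℚ) - u) = 0 := by
    apply mul_left_cancel₀ hP
    rw [mul_zero, mul_add]
    exact e0.symm
  refine ⟨a0, ?_⟩
  apply mul_left_cancel₀ hP
  rw [mul_zero]
  linear_combination (-(derivative (Pn c b)).eval x) * a0 - e1

end

end Pool.Agent.TH50.DL.Two
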