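import Pool.Agent.TH50.DL.Two

/-!
# The 2-adic bound: shift of the functional and the norm bound
-/

open Polynomial

namespace Pool.Agent.TH50.DL.Two

open Pool.Agent.LP Pool.Agent.LP.T2

noncomputable section

lemma TT_eq (j k : ℕ) : (2 : ℚ) ^ k * Tz j k = ∑ u ∈ Finset.range k, (2 : ℚ) ^ u / ((k : ℚ) - u) ^ j := by
  unfold Tz
  have h1 : Finset.Icc 1 k = Finset.Ico 1 (k + 1) := by
    ext x; simp only [Finset.mem_Icc, Finset.mem_Ico]; omega
  rw [h1, Finset.sum_Ico_eq_sum_range, Nat.add_sub_cancel, Finset.mul_sum, ← Finset.sum_range_reflect]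
  refine Finset.sum_congr rfl fun u hu => ?_
  rw [Finset.mem_range] at hu
  have h2 : 1 + (k - 1 - u) = k - u := by omega
  rw [h2, Nat.cast_sub hu.le]
  have h3 : (2 : ℚ) ^ k = 2 ^ u * 2 ^ (k - u) := by rw [← pow_add]; congr 1; omega
  rw [h3, one_div, inv_pow]
  have h4 : (2 : ℚ) ^ (k - u) ≠ 0 := pow_ne_zero _ two_ne_zero
  field_simp

lemma TT_shift {j k N : ℕ} (hN : N ≤ k) : (2 : ℚ) ^ k * Tz j k =
    2 ^ N * (2 ^ (k - N) * Tz j (k - N)) + ∑ u ∈ Finset.range N, (2 : ℚ) ^ u / ((k : ℚ) - u) ^ j := by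
  rw [TT_eq, TT_eq]
  have h1 : k = N + (k - N) := by omega
  conv_lhs => rw [h1, Finset.sum_range_add]
  rw [add_comm, Finset.mul_sum]
  have h2 : (N : ℚ) + ((k - N : ℕ) : ℚ) = k := by rw [Nat.cast_sub hN]; ring
  congr 1
  · refine Finset.sum_congr rfl fun u _ => ?_
    rw [pow_add]
    push_cast
    rw [h2, Nat.cast_sub hN]
    have e : (k : ℚ) - (N + u) = k - N - u := by ring
    rw [e]
    ring
  · refine Finset.sum_congr rfl fun u _ => ?_
    push_cast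
    rw [h2]

lemma EB_iter (q : ℚ[X]) (N : ℕ) : EB q = 2 ^ N * EB (q.comp (X - C (N : ℚ))) -
    ∑ u ∈ Finset.range N, (2 : ℚ) ^ u * q.eval (-(u : ℚ)) := by
  induction N with
  | zero => simp
  | succ N ih =>
    have h1 := EB_shift (q.comp (X - C ((N + 1 : ℕ) : ℚ)))
    have h2 : (q.comp (X - C ((N + 1 : ℕ) : ℚ))).comp (X + 1) = q.comp (X - C (N : ℚ)) := by
      rw [comp_assoc]
      congr 1
      simp only [sub_comp, X_comp, C_comp]
      push_cast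
      rw [C_add, C_1]
      ring
    have h3 : (q.comp (X - C ((N + 1 : ℕ) : ℚ))).eval 1 = q.eval (-(N : ℚ)) := by
      rw [eval_comp]
      congr 1
      simp
    rw [h2, h3] at h1
    rw [Finset.sum_range_succ, ih, pow_succ]
    linear_combination (-(2 : ℚ) ^ N) * h1

/-- **the shift**: double zeros at `0, -1, …, -(N-1)` give the factor `2^N` -/
theorem LT_shift {c b N : ℕ} (hN : N ≤ c) (α β γ : ℚ) {g : ℚ[X]} (h0 : ∀ u < N, g.eval (-(u : ℚ)) = 0)
    (h1 : ∀ u < N, (derivative g).eval (-(u : ℚ)) = 0) :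
    LT c b α β γ g = 2 ^ N * (∑ k ∈ Finset.Icc c b, rho c b g k *
        (2 ^ (k - N) * γ + α * (2 ^ (k - N) * Tz 1 (k - N)) + β * (2 ^ (k - N) * Tz 2 (k - N))) -
      α * EB ((g /ₘ Pn c b).comp (X - C (N : ℚ))) +
      β * EB ((derivative (g /ₘ Pn c b)).comp (X - C (N : ℚ)))) := by
  unfold LT
  set q := g /ₘ Pn c b with hq
  have e1 := EB_iter q N
  have e2 := EB_iter (derivative q) N
  have hsum : ∑ k ∈ Finset.Icc c b, (2 : ℚ) ^ k * rho c b g k * (γ + α * Tz 1 k + β * Tz 2 k) =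
      2 ^ N * ∑ k ∈ Finset.Icc c b, rho c b g k *
        (2 ^ (k - N) * γ + α * (2 ^ (k - N) * Tz 1 (k - N)) + β * (2 ^ (k - N) * Tz 2 (k - N))) +
      ∑ u ∈ Finset.range N, (2 : ℚ) ^ u * (α * ∑ k ∈ Finset.Icc c b, rho c b g k / ((k : ℚ) - u) +
        β * ∑ k ∈ Finset.Icc c b, rho c b g k / ((k : ℚ) - u) ^ 2) := by
    have hsw : ∑ u ∈ Finset.range N, (2 : ℚ) ^ u * (α * ∑ k ∈ Finset.Icc c b, rho c b g k / ((k : ℚ) - u) +
        β * ∑ k ∈ Finset.Icc c b, rho c b g k / ((k : ℚ) - u) ^ 2) =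
        ∑ k ∈ Finset.Icc c b, rho c b g k * (α * ∑ u ∈ Finset.range N, (2 : ℚ) ^ u / ((k : ℚ) - u) ^ 1 +
          β * ∑ u ∈ Finset.range N, (2 : ℚ) ^ u / ((k : ℚ) - u) ^ 2) := by
      simp only [mul_add, Finset.sum_add_distrib, Finset.mul_sum]
      congr 1
      · rw [Finset.sum_comm]
        refine Finset.sum_congr rfl fun k _ => Finset.sum_congr rfl fun u _ => ?_
        rw [pow_one]
        ring
      · rw [Finset.sum_comm]
        refine Finset.sum_congr rfl fun k _ => Finset.sum_congr rfl fun u _ => ?_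
        ring
    rw [hsw, Finset.mul_sum, ← Finset.sum_add_distrib]
    refine Finset.sum_congr rfl fun k hk => ?_
    rw [Finset.mem_Icc] at hk
    have t1 := TT_shift (j := 1) (show N ≤ k by omega)
    have t2 := TT_shift (j := 2) (show N ≤ k by omega)
    have t0 : (2 : ℚ) ^ k = 2 ^ N * 2 ^ (k - N) := by rw [← pow_add]; congr 1; omega
    linear_combination (rho c b g k * γ) * t0 + (rho c b g k * α) * t1 + (rho c b g k * β) * t2
  have hz : ∑ u ∈ Finset.range N, (2 : ℚ) ^ u * (α * ∑ k ∈ Finset.Icc c b, rho c b g k / ((k : ℚ) - u) +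
        β * ∑ k ∈ Finset.Icc c b, rho c b g k / ((k : ℚ) - u) ^ 2) =
      -α * ∑ u ∈ Finset.range N, (2 : ℚ) ^ u * q.eval (-(u : ℚ)) +
        β * ∑ u ∈ Finset.range N, (2 : ℚ) ^ u * (derivative q).eval (-(u : ℚ)) := by
    rw [Finset.mul_sum, Finset.mul_sum, ← Finset.sum_add_distrib]
    refine Finset.sum_congr rfl fun u hu => ?_
    rw [Finset.mem_range] at hu
    obtain ⟨a0, a1⟩ := pf_zero (c := c) (b := b) (show u < c by omega) (h0 u hu) (h1 u hu)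
    rw [← hq] at a0 a1
    linear_combination ((2 : ℚ) ^ u * α) * a0 - ((2 : ℚ) ^ u * β) * a1
  rw [hsum, hz, e1, e2]
  ring

/-! ### norms -/

lemma TT_norm {i k K : ℕ} (hk : k < 2 ^ (K + 1)) : padicNorm 2 ((2 : ℚ) ^ k * Tz i k) ≤ ((2 : ℚ) ^ K) ^ i := by
  rw [TT_eq]
  refine padicNorm.sum_le' (fun u hu => ?_) (by positivity)
  rw [Finset.mem_range] at hu
  have h1 : (2 : ℚ) ^ u / ((k : ℚ) - u) ^ i = ((2 ^ u : ℕ) : ℚ) * (((k - u : ℕ) : ℚ)⁻¹) ^ i := by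
    rw [Nat.cast_sub hu.le, inv_pow, div_eq_mul_inv]
    push_cast
    rfl
  rw [h1, padicNorm.mul]
  have h2 : padicNorm 2 (((2 ^ u : ℕ) : ℚ)) ≤ 1 := padicNorm.of_nat _
  have h3 : padicNorm 2 ((((k - u : ℕ) : ℚ)⁻¹) ^ i) ≤ ((2 : ℚ) ^ K) ^ i := by
    have h4 : ∀ (x : ℚ) (i : ℕ), padicNorm 2 (x ^ i) = padicNorm 2 x ^ i := by
      intro x i
      induction i with
      | zero => simp
      | succ i ih => rw [pow_succ, pow_succ, padicNorm.mul, ih]
    rw [h4]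
    refine pow_le_pow_left₀ (padicNorm.nonneg _) ?_ _
    have h5 := norm_inv_nat (p := 2) (j := k - u) (k := K) (by omega) (by omega)
    exact_mod_cast h5
  calc _ ≤ 1 * ((2 : ℚ) ^ K) ^ i := mul_le_mul h2 h3 (padicNorm.nonneg _) zero_le_one
    _ = _ := one_mul _

lemma weight_norm {k K : ℕ} (hk : k < 2 ^ (K + 1)) (α β γ : ℤ) :
    padicNorm 2 ((2 : ℚ) ^ k * (γ : ℚ) + (α : ℚ) * (2 ^ k * Tz 1 k) + (β : ℚ) * (2 ^ k * Tz 2 k)) ≤
      (2 : ℚ) ^ (2 * K) := by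
  have h0 : (1 : ℚ) ≤ (2 : ℚ) ^ K := one_le_pow₀ (by norm_num)
  have hT : (2 : ℚ) ^ (2 * K) = (2 : ℚ) ^ K * (2 : ℚ) ^ K := by rw [← pow_add]; congr 1; ring
  rw [hT]
  have ha := TT_norm (i := 1) hk
  have hb := TT_norm (i := 2) hk
  rw [pow_one] at ha
  rw [pow_two] at hb
  have h1 : padicNorm 2 ((2 : ℚ) ^ k * (γ : ℚ)) ≤ (2 : ℚ) ^ K * (2 : ℚ) ^ K := by
    have h := padicNorm.of_int (p := 2) (2 ^ k * γ)
    push_cast at h
    nlinarith
  have h2 : padicNorm 2 ((α : ℚ) * (2 ^ k * Tz 1 k)) ≤ (2 : ℚ) ^ K * (2 : ℚ) ^ K := by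
    rw [padicNorm.mul]
    have := padicNorm.of_int (p := 2) α
    have h5 := padicNorm.nonneg (p := 2) ((2 : ℚ) ^ k * Tz 1 k)
    nlinarith [padicNorm.nonneg (p := 2) (α : ℚ)]
  have h3 : padicNorm 2 ((β : ℚ) * (2 ^ k * Tz 2 k)) ≤ (2 : ℚ) ^ K * (2 : ℚ) ^ K := by
    rw [padicNorm.mul]
    have := padicNorm.of_int (p := 2) β
    have h5 := padicNorm.nonneg (p := 2) ((2 : ℚ) ^ k * Tz 2 k)
    nlinarith [padicNorm.nonneg (p := 2) (β : ℚ)]
  refine (padicNorm.nonarchimedean (p := 2)).trans (max_le ?_ h3)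
  exact (padicNorm.nonarchimedean (p := 2)).trans (max_le h1 h2)

lemma fact_inv_le (n : ℕ) : (padicNorm 2 ((n.factorial : ℕ) : ℚ))⁻¹ ≤ (2 : ℚ) ^ n := by
  rw [two_fact_inv, zpow_natCast]
  exact pow_le_pow_right₀ (by norm_num) (two_val_le n)

lemma rho_norm {c b k : ℕ} (hk : k ∈ Finset.Icc c b) {g : ℚ[X]} {A : ℚ} (hA : 0 ≤ A)
    (h : ∀ x : ℤ, padicNorm 2 (g.eval (x : ℚ)) ≤ A) : padicNorm 2 (rho c b g k) ≤ A * 2 ^ (b + 1 - c) := by
  rw [Finset.mem_Icc] at hk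
  unfold rho
  rw [padicNorm.div, div_eq_mul_inv]
  have h1 := h (-(k : ℤ))
  push_cast at h1
  have h2 := prod_erase_norm (u := c) (v := b + 1) (k := k) hk.1 (by omega)
  have hIcc : Finset.Ico c (b + 1) = Finset.Icc c b := by
    ext x; simp only [Finset.mem_Icc, Finset.mem_Ico]; omega
  rw [hIcc] at h2
  have h0 : 0 < padicNorm 2 (((b + 1 - c - 1).factorial : ℕ) : ℚ) := by
    have : (((b + 1 - c - 1).factorial : ℕ) : ℚ) ≠ 0 := by exact_mod_cast Nat.factorial_ne_zero _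
    exact lt_of_le_of_ne (padicNorm.nonneg _) (Ne.symm fun h0 => this (padicNorm.zero_of_padicNorm_eq_zero h0))
  have h3 : (padicNorm 2 (∏ j ∈ (Finset.Icc c b).erase k, ((j : ℚ) - k)))⁻¹ ≤ (2 : ℚ) ^ (b + 1 - c) := by
    refine (inv_anti₀ h0 h2).trans ((fact_inv_le _).trans ?_)
    exact pow_le_pow_right₀ (by norm_num) (by omega)
  exact mul_le_mul h1 h3 (inv_nonneg.2 (padicNorm.nonneg _)) hA

theorem LT_norm {c b N K : ℕ} (hN : N ≤ c) (hb : b < 2 ^ (K + 1)) {g : ℚ[X]}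
    (hd : g.natDegree < 2 ^ (K + 1)) {A : ℚ} (hA : 0 ≤ A) (hval : ∀ x : ℤ, padicNorm 2 (g.eval (x : ℚ)) ≤ A)
    (h0 : ∀ u < N, g.eval (-(u : ℚ)) = 0) (h1 : ∀ u < N, (derivative g).eval (-(u : ℚ)) = 0) (α β γ : ℤ)
    (hcb : c ≤ b) :
    padicNorm 2 (LT c b α β γ g) ≤ (2 : ℚ) ^ (-(N : ℤ)) * (A * 2 ^ (b + 1 - c + 2 * K)) := by
  rw [LT_shift hN _ _ _ h0 h1, padicNorm.mul, norm_two_pow]
  refine mul_le_mul_of_nonneg_left ?_ (by positivity)
  set q := g /ₘ Pn c b with hq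
  have h2 : (1 : ℚ) ≤ 2 := by norm_num
  set B : ℚ := A * 2 ^ (b + 1 - c + 2 * K) with hB
  have hB0 : 0 ≤ B := by positivity
  -- values of the quotient
  have hqv : ∀ x : ℤ, padicNorm 2 (q.eval (x : ℚ)) ≤ A * 2 ^ (b + 1 - c + K) := by
    intro x
    have hPG : Pn c b = GG (((1 - ((b + 1 : ℕ) : ℤ) : ℤ)) : ℚ) (b + 1 - c) := by
      rw [Pn_eq, EE_eq_GG (by omega)]
      push_cast
      rfl
    rw [hq, hPG]
    have h3 := P2_divG (p := 2) (f := g) (k := K) hd (b + 1 - c) (1 - ((b + 1 : ℕ) : ℤ)) hA hval x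
    refine h3.trans ?_
    have h4 := fact_inv_le (b + 1 - c)
    calc (padicNorm 2 (((b + 1 - c).factorial : ℕ) : ℚ))⁻¹ * ((2 : ℕ) : ℚ) ^ K * A
        ≤ 2 ^ (b + 1 - c) * ((2 : ℕ) : ℚ) ^ K * A := by gcongr
      _ = A * 2 ^ (b + 1 - c + K) := by push_cast; ring
  have hqd : q.natDegree < 2 ^ (K + 1) := by
    rw [hq, natDegree_divByMonic _ (Pn_monic _ _)]
    omega
  have hqv' : ∀ x : ℤ, padicNorm 2 ((derivative q).eval (x : ℚ)) ≤ B := by
    intro x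
    have h3 := norm_derivative (p := 2) (f := q) (k := K) hqd (A := A * 2 ^ (b + 1 - c + K)) (by positivity) hqv x
    refine h3.trans (le_of_eq ?_)
    rw [hB]
    push_cast
    ring
  have hle : A * 2 ^ (b + 1 - c + K) ≤ B := by
    rw [hB]
    refine mul_le_mul_of_nonneg_left (pow_le_pow_right₀ h2 (by omega)) hA
  have hEB1 : padicNorm 2 (EB (q.comp (X - C (N : ℚ)))) ≤ B := by
    refine norm_EB hB0 fun x => ?_
    rw [eval_comp, eval_sub, eval_X, eval_C]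
    have := hqv (x - N)
    push_cast at this
    exact this.trans hle
  have hEB2 : padicNorm 2 (EB ((derivative q).comp (X - C (N : ℚ)))) ≤ B := by
    refine norm_EB hB0 fun x => ?_
    rw [eval_comp, eval_sub, eval_X, eval_C]
    have := hqv' (x - N)
    push_cast at this
    exact this
  have hint : ∀ (z : ℤ) (y : ℚ), padicNorm 2 y ≤ B → padicNorm 2 ((z : ℚ) * y) ≤ B := by
    intro z y hy
    rw [padicNorm.mul]
    have := padicNorm.of_int (p := 2) z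
    nlinarith [padicNorm.nonneg (p := 2) y, padicNorm.nonneg (p := 2) (z : ℚ)]
  have hres : padicNorm 2 (∑ k ∈ Finset.Icc c b, rho c b g k *
        (2 ^ (k - N) * (γ : ℚ) + (α : ℚ) * (2 ^ (k - N) * Tz 1 (k - N)) + (β : ℚ) * (2 ^ (k - N) * Tz 2 (k - N)))) ≤ B := by
    refine padicNorm.sum_le' (fun k hk => ?_) hB0
    rw [padicNorm.mul]
    have h3 := rho_norm hk hA hval
    have hkb := (Finset.mem_Icc.1 hk).2
    have h4 := weight_norm (k := k - N) (K := K) (by omega) α β γ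
    calc _ ≤ (A * 2 ^ (b + 1 - c)) * 2 ^ (2 * K) := mul_le_mul h3 h4 (padicNorm.nonneg _) (by positivity)
      _ = B := by rw [hB]; ring
  refine (padicNorm.nonarchimedean (p := 2)).trans (max_le ?_ (hint β _ hEB2))
  rw [sub_eq_add_neg]
  refine (padicNorm.nonarchimedean (p := 2)).trans (max_le hres ?_)
  rw [padicNorm.neg]
  exact hint α _ hEB1

end

end Pool.Agent.TH50.DL.Two
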