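import Pool.Agent.TH50.DL.TwoB

/-!
# The 2-adic bound: the basis, the entries, the determinant
-/

open Polynomial

namespace Pool.Agent.TH50.DL.Two

open Pool.Agent.LP Pool.Agent.LP.T2

noncomputable section

/-- number of nodes used up by the `i`-th basis polynomial -/
def NN (n i : ℕ) : ℕ := min i n + (i - n) / 3

/-- basis polynomials: simple nodes `0, …, n-1`, triple nodes from `n` on -/
def bP (n i : ℕ) : ℚ[X] :=
  EE 0 (min i n) * EE n (n + (i - n) / 3) ^ 3 * (X + C ((n + (i - n) / 3 : ℕ) : ℚ)) ^ ((i - n) % 3)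

lemma bP_monic (n i : ℕ) : (bP n i).Monic :=
  ((EE_monic _ _).mul ((EE_monic _ _).pow _)).mul ((monic_X_add_C _).pow _)

lemma bP_natDegree (n i : ℕ) : (bP n i).natDegree = i := by
  unfold bP
  rw [Monic.natDegree_mul ((EE_monic _ _).mul ((EE_monic _ _).pow _)) ((monic_X_add_C _).pow _),
    Monic.natDegree_mul (EE_monic _ _) ((EE_monic _ _).pow _), (EE_monic _ _).natDegree_pow,
    (monic_X_add_C _).natDegree_pow, EE_natDegree, EE_natDegree, natDegree_X_add_C]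
  omega

lemma fact_le {t K : ℕ} (ht : Nat.log 2 t ≤ K) :
    padicNorm 2 ((t.factorial : ℕ) : ℚ) ≤ (2 : ℚ) ^ (-(t : ℤ) + (K + 1 : ℕ)) := by
  rw [two_fact]
  refine zpow_le_zpow_right₀ (by norm_num) ?_
  have := two_val_ge t
  rw [Nat.cast_add, Nat.cast_one]
  omega

lemma EE_val {u v K : ℕ} (h : Nat.log 2 (v - u) ≤ K) (x : ℤ) :
    padicNorm 2 ((EE u v).eval (x : ℚ)) ≤ (2 : ℚ) ^ (-((v - u : ℕ) : ℤ) + (K + 1 : ℕ)) :=
  (EE_norm u v x).trans (fact_le h)

lemma pow_norm (x : ℚ) (k : ℕ) : padicNorm 2 (x ^ k) = padicNorm 2 x ^ k := by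
  induction k with
  | zero => simp
  | succ k ih => rw [pow_succ, pow_succ, padicNorm.mul, ih]

lemma lin_val (a k : ℕ) (x : ℤ) : padicNorm 2 (((X + C (a : ℚ)) ^ k : ℚ[X]).eval (x : ℚ)) ≤ 1 := by
  rw [eval_pow, eval_add, eval_X, eval_C, pow_norm]
  have := padicNorm.of_int (p := 2) (x + a)
  push_cast at this
  exact pow_le_one₀ (padicNorm.nonneg _) this

lemma bP_val {n i K : ℕ} (hn : Nat.log 2 n ≤ K) (hi : Nat.log 2 ((i - n) / 3) ≤ K) (x : ℤ) :
    padicNorm 2 ((bP n i).eval (x : ℚ)) ≤ (2 : ℚ) ^ (-(i : ℤ) + (4 * K + 6 : ℕ)) := by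
  unfold bP
  rw [eval_mul, eval_mul, eval_pow, padicNorm.mul, padicNorm.mul, pow_norm]
  have h1 := EE_val (u := 0) (v := min i n) (K := K)
    ((Nat.log_mono_right (by omega)).trans hn) x
  have h2 := EE_val (u := n) (v := n + (i - n) / 3) (K := K) (by rwa [Nat.add_sub_cancel_left]) x
  have h3 := lin_val (n + (i - n) / 3) ((i - n) % 3) x
  rw [Nat.sub_zero] at h1
  rw [Nat.add_sub_cancel_left] at h2
  have h4 : padicNorm 2 ((EE n (n + (i - n) / 3)).eval (x : ℚ)) ^ 3 ≤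
      ((2 : ℚ) ^ (-(((i - n) / 3 : ℕ) : ℤ) + (K + 1 : ℕ))) ^ 3 :=
    pow_le_pow_left₀ (padicNorm.nonneg _) h2 _
  calc _ ≤ (2 : ℚ) ^ (-((min i n : ℕ) : ℤ) + (K + 1 : ℕ)) *
        ((2 : ℚ) ^ (-(((i - n) / 3 : ℕ) : ℤ) + (K + 1 : ℕ))) ^ 3 * 1 := by
        refine mul_le_mul (mul_le_mul h1 h4 (by positivity [padicNorm.nonneg (p := 2) ((EE n (n + (i - n) / 3)).eval (x : ℚ))]) (by positivity)) h3
          (padicNorm.nonneg _) (by positivity)
    _ = (2 : ℚ) ^ ((-((min i n : ℕ) : ℤ) + (K + 1 : ℕ)) + (-(((i - n) / 3 : ℕ) : ℤ) + (K + 1 : ℕ)) * 3) := by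
        rw [mul_one, zpow_add₀ (by norm_num) _ ((-(((i - n) / 3 : ℕ) : ℤ) + (K + 1 : ℕ)) * 3), zpow_mul]
        norm_cast
    _ ≤ _ := by
        refine zpow_le_zpow_right₀ (by norm_num) ?_
        push_cast
        omega

lemma der_zero {p r : ℚ[X]} {x : ℚ} (hp : p.eval x = 0) (hr : r.eval x = 0) :
    (derivative (p * r)).eval x = 0 := by
  rw [derivative_mul, eval_add, eval_mul, eval_mul, hp, hr]
  ring

/-- entries, `j ≤ i` -/
lemma entry_ge {n i j K : ℕ} (hn : 1 ≤ n) (hi : i ≤ 4 * n) (hij : j ≤ i) (hK : 13 * n < 2 ^ (K + 1))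
    (α β γ : ℤ) : padicNorm 2 (L n (5 * n) α β γ (bP n i * bP n j)) ≤
      (2 : ℚ) ^ (3 * (n : ℤ) - i - j - NN n i + (11 * K + 14 : ℕ)) := by
  have h1 : (1 : ℚ) ≤ 2 := by norm_num
  have hlog : ∀ t, t ≤ 13 * n → Nat.log 2 t ≤ K := by
    intro t ht
    rcases Nat.eq_zero_or_pos t with rfl | h
    · simp
    · have := Nat.log_lt_of_lt_pow (b := 2) (x := K + 1) h.ne' (by omega)
      omega
  rw [L_eq_LT, An_eq]
  by_cases hc : i ≤ n
  · -- all nodes simple
    have hg0 : EE 0 n * (bP n i * bP n j) = EE 0 n * (EE 0 i * (bP n j)) := by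
      have : bP n i = EE 0 i := by
        unfold bP
        have e1 : min i n = i := by omega
        have e2 : i - n = 0 := by omega
        rw [e1, e2]
        unfold EE
        simp
      rw [this]
    rw [hg0]
    have hd : (EE 0 n * (EE 0 i * (bP n j))).natDegree < 2 ^ (K + 1) := by
      rw [Monic.natDegree_mul (EE_monic _ _) ((EE_monic _ _).mul (bP_monic _ _)),
        Monic.natDegree_mul (EE_monic _ _) (bP_monic _ _), EE_natDegree, EE_natDegree, bP_natDegree]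
      omega
    have hv : ∀ x : ℤ, padicNorm 2 ((EE 0 n * (EE 0 i * (bP n j))).eval (x : ℚ)) ≤
        (2 : ℚ) ^ (-(n : ℤ) + (K + 1 : ℕ)) * ((2 : ℚ) ^ (-(i : ℤ) + (K + 1 : ℕ)) *
          (2 : ℚ) ^ (-(j : ℤ) + (4 * K + 6 : ℕ))) := by
      intro x
      rw [eval_mul, eval_mul, padicNorm.mul, padicNorm.mul]
      have a1 := EE_val (u := 0) (v := n) (K := K) (hlog _ (by omega)) x
      have a2 := EE_val (u := 0) (v := i) (K := K) (hlog _ (by omega)) x
      have a3 := bP_val (n := n) (i := j) (K := K) (hlog _ (by omega)) (hlog _ (by omega)) x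
      rw [Nat.sub_zero] at a1 a2
      exact mul_le_mul a1 (mul_le_mul a2 a3 (padicNorm.nonneg _) (by positivity))
        (mul_nonneg (padicNorm.nonneg _) (padicNorm.nonneg _)) (by positivity)
    have key := LT_norm (c := n) (b := 5 * n) (N := i) (K := K) hc (by omega) hd (by positivity) hv
      (fun u hu => by
        rw [eval_mul, EE_eval_neg (Nat.zero_le _) (by omega), zero_mul])
      (fun u hu => by
        refine der_zero (EE_eval_neg (Nat.zero_le _) (by omega)) ?_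
        rw [eval_mul, EE_eval_neg (Nat.zero_le _) hu, zero_mul]) α β γ (by omega)
    refine key.trans ?_
    rw [← zpow_natCast (2 : ℚ) (5 * n + 1 - n + 2 * K), ← zpow_add₀ (by norm_num), ← zpow_add₀ (by norm_num),
      ← zpow_add₀ (by norm_num), ← zpow_add₀ (by norm_num)]
    refine zpow_le_zpow_right₀ h1 ?_
    have hNN : NN n i = i := by unfold NN; omega
    rw [hNN]
    push_cast
    omega
  · push Not at hc
    obtain ⟨N, hN⟩ : ∃ N, N = n + (i - n) / 3 := ⟨_, rfl⟩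
    have hg0 : EE 0 n * (bP n i * bP n j) =
        EE n N * (EE 0 N * (EE 0 N * ((X + C (N : ℚ)) ^ ((i - n) % 3) * bP n j))) := by
      have : bP n i = EE 0 n * EE n N ^ 3 * (X + C (N : ℚ)) ^ ((i - n) % 3) := by
        unfold bP
        have e1 : min i n = n := by omega
        rw [e1, ← hN]
      rw [this]
      have e2 : EE 0 N = EE 0 n * EE n N := (EE_mul (Nat.zero_le _) (by omega)).symm
      rw [e2]
      ring
    rw [hg0, LT_cancel (show n ≤ N by omega) (show N ≤ 5 * n by omega)]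
    have hlin : ((X + C (N : ℚ)) ^ ((i - n) % 3) : ℚ[X]).Monic := (monic_X_add_C _).pow _
    have hlin_d : ((X + C (N : ℚ)) ^ ((i - n) % 3) : ℚ[X]).natDegree = (i - n) % 3 := by
      rw [(monic_X_add_C _).natDegree_pow, natDegree_X_add_C, mul_one]
    have hd : (EE 0 N * (EE 0 N * ((X + C (N : ℚ)) ^ ((i - n) % 3) * bP n j))).natDegree < 2 ^ (K + 1) := by
      rw [Monic.natDegree_mul (EE_monic _ _) ((EE_monic _ _).mul (hlin.mul (bP_monic _ _))),
        Monic.natDegree_mul (EE_monic _ _) (hlin.mul (bP_monic _ _)),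
        Monic.natDegree_mul hlin (bP_monic _ _), EE_natDegree, bP_natDegree, hlin_d]
      omega
    have hv : ∀ x : ℤ, padicNorm 2 ((EE 0 N * (EE 0 N * ((X + C (N : ℚ)) ^ ((i - n) % 3) * bP n j))).eval (x : ℚ)) ≤
        (2 : ℚ) ^ (-(N : ℤ) + (K + 1 : ℕ)) * ((2 : ℚ) ^ (-(N : ℤ) + (K + 1 : ℕ)) *
          (1 * (2 : ℚ) ^ (-(j : ℤ) + (4 * K + 6 : ℕ)))) := by
      intro x
      rw [eval_mul, eval_mul, eval_mul, padicNorm.mul, padicNorm.mul, padicNorm.mul]
      have a1 := EE_val (u := 0) (v := N) (K := K) (hlog _ (by omega)) x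
      have a3 := bP_val (n := n) (i := j) (K := K) (hlog _ (by omega)) (hlog _ (by omega)) x
      have a4 := lin_val N ((i - n) % 3) x
      rw [Nat.sub_zero] at a1
      have p1 := padicNorm.nonneg (p := 2) ((EE 0 N).eval (x : ℚ))
      have p2 := padicNorm.nonneg (p := 2) ((bP n j).eval (x : ℚ))
      have p3 := padicNorm.nonneg (p := 2) (((X + C (N : ℚ)) ^ ((i - n) % 3) : ℚ[X]).eval (x : ℚ))
      exact mul_le_mul a1 (mul_le_mul a1 (mul_le_mul a4 a3 p2 zero_le_one) (mul_nonneg p3 p2) (by positivity))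
        (mul_nonneg p1 (mul_nonneg p3 p2)) (by positivity)
    have key := LT_norm (c := N) (b := 5 * n) (N := N) (K := K) le_rfl (by omega) hd (by positivity) hv
      (fun u hu => by
        rw [eval_mul, EE_eval_neg (Nat.zero_le _) hu, zero_mul])
      (fun u hu => by
        refine der_zero (EE_eval_neg (Nat.zero_le _) hu) ?_
        rw [eval_mul, EE_eval_neg (Nat.zero_le _) hu, zero_mul]) α β γ (by omega)
    refine key.trans ?_
    rw [one_mul, ← zpow_natCast (2 : ℚ) (5 * n + 1 - N + 2 * K), ← zpow_add₀ (by norm_num),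
      ← zpow_add₀ (by norm_num), ← zpow_add₀ (by norm_num), ← zpow_add₀ (by norm_num)]
    refine zpow_le_zpow_right₀ h1 ?_
    have hNN : NN n i = N := by unfold NN; omega
    rw [hNN]
    push_cast
    omega

lemma NN_mono {n i j : ℕ} (h : j ≤ i) : NN n j ≤ NN n i := by
  unfold NN
  omega

/-- all entries, in product form -/
lemma entry_all {n i j K : ℕ} (hn : 1 ≤ n) (hi : i ≤ 4 * n) (hj : j ≤ 4 * n) (hK : 13 * n < 2 ^ (K + 1))
    (α β γ : ℤ) : padicNorm 2 (L n (5 * n) α β γ (bP n i * bP n j)) ≤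
      (2 : ℚ) ^ (3 * (n : ℤ) + (11 * K + 14 : ℕ) - i - ((NN n i / 2 : ℕ) : ℤ)) *
        (2 : ℚ) ^ (-(j : ℤ) - ((NN n j / 2 : ℕ) : ℤ)) := by
  rw [← zpow_add₀ (by norm_num)]
  rcases le_total j i with h | h
  · refine (entry_ge hn hi h hK α β γ).trans (zpow_le_zpow_right₀ (by norm_num) ?_)
    have := NN_mono (n := n) h
    omega
  · rw [mul_comm (bP n i) (bP n j)]
    refine (entry_ge hn hj h hK α β γ).trans (zpow_le_zpow_right₀ (by norm_num) ?_)
    have := NN_mono (n := n) h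
    omega

lemma sum_div_three (M : ℕ) : M * M ≤ 6 * ∑ j ∈ Finset.range M, j / 3 + 5 * M := by
  induction M with
  | zero => simp
  | succ M ih =>
    rw [Finset.sum_range_succ]
    have h1 : M ≤ 3 * (M / 3) + 2 := by omega
    nlinarith

lemma sum_NN {n m : ℕ} (hn : 1 ≤ n) (hm : 4 * n - 1 ≤ m) :
    5 * n ^ 2 ≤ ∑ i ∈ Finset.range m, NN n i + 5 * n := by
  obtain ⟨M, rfl⟩ : ∃ M, m = n + M := ⟨m - n, by omega⟩
  have hM : 3 * n ≤ M + 1 := by omega
  rw [Finset.sum_range_add]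
  have h1 : ∑ i ∈ Finset.range n, NN n i = ∑ i ∈ Finset.range n, i := by
    refine Finset.sum_congr rfl fun i hi => ?_
    rw [Finset.mem_range] at hi
    unfold NN
    omega
  have h2 : ∑ j ∈ Finset.range M, NN n (n + j) = M * n + ∑ j ∈ Finset.range M, j / 3 := by
    have : M * n = ∑ j ∈ Finset.range M, n := by rw [Finset.sum_const, Finset.card_range, smul_eq_mul]
    rw [this, ← Finset.sum_add_distrib]
    refine Finset.sum_congr rfl fun j _ => ?_
    unfold NN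
    omega
  rw [h1, h2]
  have h3 := sum_div_three M
  have h4 := Finset.sum_range_id_mul_two n
  obtain ⟨k, rfl⟩ : ∃ k, n = k + 1 := ⟨n - 1, by omega⟩
  rw [Nat.add_sub_cancel] at h4
  obtain ⟨r, rfl⟩ : ∃ r, M = 3 * k + 2 + r := ⟨M - (3 * k + 2), by omega⟩
  nlinarith

lemma final_int {n m K : ℕ} {S : ℤ} (hn : (1 : ℤ) ≤ n) (_hK : (0 : ℤ) ≤ K)
    (hm : (m : ℤ) = 4 * n - 1 ∨ (m : ℤ) = 4 * n ∨ (m : ℤ) = 4 * n + 1) (hS : 5 * (n : ℤ) ^ 2 ≤ S + 5 * n) :
    m * (3 * (n : ℤ) + (11 * K + 14 : ℕ) + 1) - m * (m - 1) - S ≤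
      (((4 * n + 1) * (11 * K + 14) + 24 * n : ℕ) : ℤ) - ((9 * n ^ 2 : ℕ) : ℤ) := by
  push_cast
  rcases hm with h | h | h
  · rw [h]; linarith [mul_nonneg (show (0 : ℤ) ≤ n by linarith) _hK]
  · rw [h]; linarith [mul_nonneg (show (0 : ℤ) ≤ n by linarith) _hK]
  · rw [h]; linarith [mul_nonneg (show (0 : ℤ) ≤ n by linarith) _hK]

theorem P_two_aux {n m K : ℕ} (hn : 1 ≤ n) (hm1 : 4 * n - 1 ≤ m) (hm : m ≤ 4 * n + 1)
    (hK : 13 * n < 2 ^ (K + 1)) (α β γ : ℤ) :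
    padicNorm 2 (DD n (5 * n) m α β γ) ≤
      (2 : ℚ) ^ ((((4 * n + 1) * (11 * K + 14) + 24 * n : ℕ) : ℤ) - ((9 * n ^ 2 : ℕ) : ℤ)) := by
  unfold DD
  rw [← P2_det (L n (5 * n) α β γ) m (bP n) (bP n) (fun i _ => ⟨bP_monic _ _, bP_natDegree _ _⟩)
    (fun i _ => ⟨bP_monic _ _, bP_natDegree _ _⟩)]
  refine (P2_leibniz 2 m _ (fun i => (2 : ℚ) ^ (3 * (n : ℤ) + (11 * K + 14 : ℕ) - i - ((NN n i / 2 : ℕ) : ℤ)))
    (fun j => (2 : ℚ) ^ (-(j : ℤ) - ((NN n j / 2 : ℕ) : ℤ))) (fun _ => by positivity) (fun _ => by positivity)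
    (fun i j => ?_)).trans ?_
  · rw [Matrix.of_apply]
    exact entry_all hn (by omega) (by omega) hK α β γ
  · rw [← Finset.prod_mul_distrib]
    have h1 : ∀ i ∈ Finset.range m,
        (2 : ℚ) ^ (3 * (n : ℤ) + (11 * K + 14 : ℕ) - i - ((NN n i / 2 : ℕ) : ℤ)) *
          (2 : ℚ) ^ (-(i : ℤ) - ((NN n i / 2 : ℕ) : ℤ)) ≤
        (2 : ℚ) ^ (3 * (n : ℤ) + (11 * K + 14 : ℕ) + 1 - 2 * i - NN n i) := by
      intro i _
      rw [← zpow_add₀ (by norm_num)]
      refine zpow_le_zpow_right₀ (by norm_num) ?_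
      omega
    refine (Finset.prod_le_prod (fun i _ => by positivity) h1).trans ?_
    have h2 : ∀ M : ℕ, ∏ i ∈ Finset.range M, (2 : ℚ) ^ (3 * (n : ℤ) + (11 * K + 14 : ℕ) + 1 - 2 * i - NN n i) =
        (2 : ℚ) ^ (M * (3 * (n : ℤ) + (11 * K + 14 : ℕ) + 1) - M * (M - 1) -
          ((∑ i ∈ Finset.range M, NN n i : ℕ) : ℤ)) := by
      intro M
      induction M with
      | zero => simp
      | succ M ih =>
        rw [Finset.prod_range_succ, ih, ← zpow_add₀ (by norm_num), Finset.sum_range_succ]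
        congr 1
        push_cast
        ring
    rw [h2]
    refine zpow_le_zpow_right₀ (by norm_num) ?_
    have h3 := sum_NN hn hm1
    have h3' : (5 : ℤ) * (n : ℤ) ^ 2 ≤ ((∑ i ∈ Finset.range m, NN n i : ℕ) : ℤ) + 5 * n := by exact_mod_cast h3
    have hn' : (1 : ℤ) ≤ n := by exact_mod_cast hn
    have hK0 : (0 : ℤ) ≤ K := Int.natCast_nonneg K
    have hcases : (m : ℤ) = 4 * n - 1 ∨ (m : ℤ) = 4 * n ∨ (m : ℤ) = 4 * n + 1 := by omega
    exact final_int hn' hK0 hcases h3'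

/-- **the 2-adic bound** -/
theorem P_two : ∃ C : ℕ, ∀ {n m : ℕ}, 2 ≤ n → 4 * n - 1 ≤ m → m ≤ 4 * n + 1 → ∀ α β γ : ℤ,
    padicNorm 2 (DD n (5 * n) m α β γ) ≤
      (2 : ℚ) ^ (((C * n * Nat.log 2 n : ℕ) : ℤ) - ((9 * n ^ 2 : ℕ) : ℤ)) := by
  refine ⟨400, fun {n m} hn hm1 hm α β γ => ?_⟩
  set K := Nat.log 2 (13 * n) with hK
  have hK1 : 13 * n < 2 ^ (K + 1) := Nat.lt_pow_succ_log_self (by norm_num) _
  refine (P_two_aux (by omega) hm1 hm hK1 α β γ).trans (zpow_le_zpow_right₀ (by norm_num) ?_)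
  have hl1 : 1 ≤ Nat.log 2 n := Nat.log_pos (by norm_num) hn
  have hKl : K ≤ Nat.log 2 n + 4 := by
    have h4 : Nat.log 2 (n * 2 * 2 * 2 * 2) = Nat.log 2 n + 4 := by
      rw [Nat.log_mul_base (by norm_num) (by omega), Nat.log_mul_base (by norm_num) (by omega),
        Nat.log_mul_base (by norm_num) (by omega), Nat.log_mul_base (by norm_num) (by omega)]
    rw [← h4]
    exact Nat.log_mono_right (by omega)
  set l := Nat.log 2 n with hl
  have h5 : (4 * n + 1) * (11 * K + 14) ≤ 345 * n * l := by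
    calc (4 * n + 1) * (11 * K + 14) ≤ (5 * n) * (69 * l) := Nat.mul_le_mul (by omega) (by omega)
      _ = 345 * n * l := by ring
  have h7 : 24 * n ≤ 24 * n * l := Nat.le_mul_of_pos_right _ (by omega)
  have h8 : (4 * n + 1) * (11 * K + 14) + 24 * n ≤ 400 * n * l := by
    have h9 : 400 * n * l = 345 * n * l + 24 * n * l + 31 * n * l := by ring
    rw [h9]
    omega
  have h10 : ((((4 * n + 1) * (11 * K + 14) + 24 * n : ℕ)) : ℤ) ≤ ((400 * n * l : ℕ) : ℤ) := by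
    exact_mod_cast h8
  linarith

end

end Pool.Agent.TH50.DL.Two
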